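import Pool.Agent.Helper46.Tuk.PI

/-!
# Child extensions of live configurations
-/

namespace Pool.Agent.Helper46.Tuk

open Set Filter

variable {Ω : Type} [LinearOrder Ω] [OrderBot Ω] [IsOm1 Ω]
variable {T : Ω → Lev Ω} {B : Ω → Set ℕ} {k n : ℕ} {t : ℕ → Ω} {c : ℕ → Set ℕ}

omit [LinearOrder Ω] [OrderBot Ω] [IsOm1 Ω] in
theorem forall_update {γ : Ω} {P : Set ℕ} {p : Ω → Set ℕ → Prop} :
    (∀ j < n + 1, p (Function.update t n γ j) (Function.update c n P j)) ↔
      (∀ j < n, p (t j) (c j)) ∧ p γ P := by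
  constructor
  · intro h
    refine ⟨fun j hj => ?_, ?_⟩
    · have := h j (by omega)
      rwa [Function.update_of_ne hj.ne, Function.update_of_ne hj.ne] at this
    · have := h n (by omega)
      rwa [Function.update_self, Function.update_self] at this
  · rintro ⟨h1, h2⟩ j hj
    rcases Nat.lt_succ_iff_lt_or_eq.1 hj with h | h
    · rw [Function.update_of_ne h.ne, Function.update_of_ne h.ne]; exact h1 j h
    · subst h; rw [Function.update_self, Function.update_self]; exact h2

/-- a refinement of an extended configuration gives true subsets -/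
theorem Ref.split {γ : Ω} {P : Set ℕ} {c' : ℕ → Set ℕ}
    (h : Ref T (n + 1) (Function.update t n γ) c' (Function.update c n P)) :
    (∀ j < n, Lg T (t j) (c' j ∩ c j)) ∧ Lg T γ (c' n ∩ P) := by
  have h1 := h.inter
  refine ⟨fun j hj => ?_, ?_⟩
  · have := h1 j (by omega)
    rwa [Function.update_of_ne hj.ne, Function.update_of_ne hj.ne] at this
  · have := h1 n (by omega)
    rwa [Function.update_self, Function.update_self] at this

theorem Ref.update {γ : Ω} {P P' : Set ℕ} {c' : ℕ → Set ℕ} (h : Ref T n t c' c)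
    (hP : Lg T γ P') (hP' : ¬ Lg T γ (P' \ P)) :
    Ref T (n + 1) (Function.update t n γ) (Function.update c' n P') (Function.update c n P) := by
  refine ⟨forall_update.2 ⟨h.lg, hP⟩, fun j hj => ?_⟩
  rcases Nat.lt_succ_iff_lt_or_eq.1 hj with h' | h'
  · rw [Function.update_of_ne h'.ne, Function.update_of_ne h'.ne, Function.update_of_ne h'.ne]
    exact h.sm j h'
  · subst h'; rw [Function.update_self, Function.update_self, Function.update_self]; exact hP'

theorem sdiff_small_of_subset {γ : Ω} {P P' : Set ℕ} (h : P' ⊆ P) : ¬ Lg T γ (P' \ P) := by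
  rw [sdiff_eq_empty.2 h]; exact not_Lg_empty T _

theorem mem_DD_update {γ τ : Ω} {P Q : Set ℕ} {ξ : Ω} :
    ξ ∈ DD T B k (n + 1) (Function.update t n τ) (Function.update c n Q) γ P ↔
      (∀ j < n, Lg T (t j) (c j ∩ B ξ)) ∧ Lg T τ (Q ∩ B ξ) ∧
        Lg T γ (P ∩ (B ξ \ xx T ξ k)) := by
  unfold DD
  rw [mem_ofPred_eq, forall_update (p := fun a s => Lg T a (s ∩ B ξ)), and_assoc]

/-- if an extended configuration is not live, then a smaller one is killable -/
theorem exists_KK_of_not_LL {γ : Ω} {P : Set ℕ} (hc : ∀ j < n, Lg T (t j) (c j))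
    (hP : Lg T γ P)
    (h : ¬ LL T B k (n + 1) (Function.update t n γ) (Function.update c n P)) :
    ∃ (c' : ℕ → Set ℕ) (P' : Set ℕ) (γ₁ : Ω), (∀ j < n, c' j ⊆ c j) ∧
      (∀ j < n, Lg T (t j) (c' j)) ∧ P' ⊆ P ∧ Lg T γ P' ∧
      KK T B k (n + 1) (Function.update t n γ) (Function.update c' n P') γ₁ := by
  have h1 : ∃ c' γ₁, Ref T (n + 1) (Function.update t n γ) c' (Function.update c n P) ∧
      KK T B k (n + 1) (Function.update t n γ) c' γ₁ := by
    by_contra hcon
    push Not at hcon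
    exact h ⟨forall_update.2 ⟨hc, hP⟩, hcon⟩
  obtain ⟨c', γ₁, h2, h3⟩ := h1
  refine ⟨fun j => c' j ∩ c j, c' n ∩ P, γ₁, fun j _ => inter_subset_right, h2.split.1,
    inter_subset_right, h2.split.2, KK_mono h3 ?_ le_rfl⟩
  refine ⟨forall_update.2 ⟨h2.split.1, h2.split.2⟩, fun j hj => ?_⟩
  apply sdiff_small_of_subset
  rcases Nat.lt_succ_iff_lt_or_eq.1 hj with h' | h'
  · rw [Function.update_of_ne h'.ne]; exact inter_subset_left
  · subst h'; rw [Function.update_self]; exact inter_subset_left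

/-- the part of a union of chosen children inside one set of the level is one child -/
theorem child_of_mem (hT : WfT T) {α : Ω} (hα : α ≠ ⊥) {idx : ℕ → ℕ} (hidx : StrictMono idx)
    {Q : ℕ → Set ℕ} (hQ : ∀ l, Q l ⊆ (T α).2 (idx l)) {X : Set ℕ} (hX : X ⊆ ⋃ l, Q l) {i : ℕ}
    {τ : Ω} (h : Lg T τ (X ∩ (T α).2 i)) : ∃ l, idx l = i ∧ X ∩ (T α).2 i ⊆ Q l := by
  have hne : (X ∩ (T α).2 i).Nonempty := by
    rw [nonempty_iff_ne_empty]
    intro h'
    rw [h'] at h
    exact not_Lg_empty T _ h
  have key : ∀ x ∈ X ∩ (T α).2 i, ∃ l, x ∈ Q l ∧ idx l = i := by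
    rintro x ⟨h1, h2⟩
    obtain ⟨l, hl⟩ := mem_iUnion.1 (hX h1)
    refine ⟨l, hl, ?_⟩
    by_contra hne
    exact Set.disjoint_left.1 ((hT α hα).disj hne) (hQ l hl) h2
  obtain ⟨x, hx⟩ := hne
  obtain ⟨l, hl, hl'⟩ := key x hx
  refine ⟨l, hl', fun y hy => ?_⟩
  obtain ⟨l', hy', hl''⟩ := key y hy
  have : l' = l := hidx.injective (hl''.trans hl'.symm)
  rwa [← this]

theorem child_ext (hT : WfT T) (h : LL T B k n t c) {j : ℕ} (hj : j < n) (htj : t j ≠ ⊥)
    (m : ℕ) :
    ∃ i, m ≤ i ∧ ∃ (c' : ℕ → Set ℕ) (Q : Set ℕ), (∀ l < n, c' l ⊆ c l) ∧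
      Q ⊆ c j ∩ (T (t j)).2 i ∧
      LL T B k (n + 1) (Function.update t n ((T (t j)).1 i)) (Function.update c' n Q) := by
  by_contra hcon
  push Not at hcon
  obtain ⟨c₀, hc₀, hc₀L, hc₀s⟩ := exists_pointed h.1
  -- first fusion
  obtain ⟨cω, idx, d, Q, hidx, hKK, hQ, hQL, hcj, hRef, hsub⟩ :=
    fuse hT hc₀L hc₀s hj htj
      (fun i c'' Q => ∃ γ₁, KK T B k (n + 1) (Function.update t n ((T (t j)).1 i))
        (Function.update c'' n Q) γ₁) (by
      intro c' h1 h2 m'
      have h3 := h2 j hj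
      rw [Lg_iff hT htj] at h3
      obtain ⟨i, hi, him⟩ := h3.exists_gt (max m m')
      have hi' : Lg T ((T (t j)).1 i) (c' j ∩ (T (t j)).2 i) := hi
      obtain ⟨c'', P', γ₁, g1, g2, g3, g4, g5⟩ := exists_KK_of_not_LL h2 hi'
        (hcon i ((le_max_left _ _).trans him.le) c' _
          (fun l hl => (h1 l hl).trans (hc₀ l hl))
          (inter_subset_inter_left _ ((h1 j hj).trans (hc₀ j hj))))
      exact ⟨i, (le_max_right _ _).trans him.le, c'', P', g1, g2, g3, g4, γ₁, g5⟩)
  choose γ₁ hγ₁ using hKK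
  obtain ⟨γs, hγs⟩ := exists_gt_seq γ₁
  have hγs0 : γs ≠ ⊥ := (bot_le.trans_lt (hγs 0)).ne'
  have hRefc : Ref T n t cω c :=
    Ref.of_subset (hRef 0).lg fun l hl => (hsub l hl).trans (hc₀ l hl)
  refine h.2 cω γs hRefc ?_
  intro γ hγ c' hc' P hP
  have hγ0 : γ ≠ ⊥ := (hγs0.bot_lt.trans_le hγ).ne'
  -- second fusion
  set c₁ : ℕ → Set ℕ := fun l => c' l ∩ cω l with hc₁
  have hc₁L : ∀ l < n, Lg T (t l) (c₁ l) := hc'.inter
  have hjn : j ≠ n := hj.ne
  have htj' : Function.update t n γ j = t j := Function.update_of_ne hjn _ _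
  have hupd : ∀ l < n, Function.update c₁ n P l = c₁ l := fun l hl =>
    Function.update_of_ne hl.ne _ _
  obtain ⟨c₂, idx₂, d₂, Q₂, hidx₂, hD₂, hQ₂, hQL₂, hcj₂, hRef₂, hsub₂⟩ :=
    fuse hT (n := n + 1) (t := Function.update t n γ) (c := Function.update c₁ n P)
      (forall_update.2 ⟨hc₁L, hP⟩) (by
        intro l hl
        rcases Nat.lt_succ_iff_lt_or_eq.1 hl with h' | h'
        · rw [Function.update_of_ne h'.ne, Function.update_of_ne h'.ne]
          intro h0
          exact (hc₀s l h' h0).anti (inter_subset_right.trans (hsub l h'))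
        · subst h'; rw [Function.update_self, Function.update_self]
          exact fun h0 => absurd h0 hγ0) (j := j) (by omega) (by rw [htj']; exact htj)
      (fun i d Q => (DD T B k (n + 1) (Function.update t n ((T (t j)).1 i))
        (Function.update d n Q) γ (d n)).Countable) (by
      intro e he heL m'
      rw [htj']
      have heL' : ∀ l < n, Lg T (t l) (e l) := by
        intro l hl
        have := heL l (by omega)
        rwa [Function.update_of_ne hl.ne] at this
      have heN : Lg T γ (e n) := by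
        have := heL n (by omega)
        rwa [Function.update_self] at this
      have he' : ∀ l < n, e l ⊆ c₁ l := fun l hl => by
        have := he l (by omega)
        rwa [Function.update_of_ne hl.ne] at this
      have h3 := heL' j hj
      rw [Lg_iff hT htj] at h3
      obtain ⟨i, hi, him⟩ := h3.exists_gt m'
      have hi' : Lg T ((T (t j)).1 i) (e j ∩ (T (t j)).2 i) := hi
      have hsubj : e j ⊆ ⋃ l, Q l := by
        rw [← hcj]; exact (he' j hj).trans inter_subset_right
      obtain ⟨l, hl, hl'⟩ := child_of_mem hT htj hidx hQ hsubj hi'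
      have hR1 : Ref T n t e (d l) :=
        (Ref.of_subset heL' fun p hp => (he' p hp).trans inter_subset_right).trans (hRef l)
      have hR2 : Ref T (n + 1) (Function.update t n ((T (t j)).1 i))
          (Function.update e n (e j ∩ (T (t j)).2 i)) (Function.update (d l) n (Q l)) :=
        hR1.update hi' (sdiff_small_of_subset hl')
      have hK := hγ₁ l
      rw [hl] at hK
      obtain ⟨cs, Ps, g1, g2, g3, g4⟩ := hK γ ((hγs l).le.trans hγ) _ hR2 (e n) heN
      refine ⟨i, him.le, Function.update (fun p => cs p ∩ e p) n Ps,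
        cs n ∩ (e j ∩ (T (t j)).2 i), ?_, ?_, inter_subset_right, g1.split.2, ?_⟩
      · intro p hp
        rcases Nat.lt_succ_iff_lt_or_eq.1 hp with h' | h'
        · rw [Function.update_of_ne h'.ne]; exact inter_subset_right
        · subst h'; rw [Function.update_self]; exact g2
      · exact forall_update.2 ⟨g1.split.1, g3⟩
      · rw [Function.update_idem, Function.update_self]
        refine g4.mono (DD_mono ?_ (sdiff_small_of_subset subset_rfl))
        intro p hp
        apply sdiff_small_of_subset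
        rcases Nat.lt_succ_iff_lt_or_eq.1 hp with h' | h'
        · rw [Function.update_of_ne h'.ne]; exact inter_subset_left
        · subst h'; rw [Function.update_self]; exact inter_subset_left)
  rw [htj'] at hQ₂ hQL₂
  have hsub₂' : ∀ l < n, c₂ l ⊆ c₁ l := fun l hl => by
    have := hsub₂ l (by omega)
    rwa [Function.update_of_ne hl.ne] at this
  have hlg₂ : ∀ l < n, Lg T (t l) (c₂ l) := fun l hl => by
    have := (hRef₂ 0).lg l (by omega)
    rwa [Function.update_of_ne hl.ne] at this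
  have hlgn : Lg T γ (c₂ n) := by
    have := (hRef₂ 0).lg n (by omega)
    rwa [Function.update_self] at this
  refine ⟨c₂, c₂ n, Ref.of_subset hlg₂ fun l hl => (hsub₂' l hl).trans inter_subset_left, ?_,
    hlgn, ?_⟩
  · have := hsub₂ n (by omega)
    rwa [Function.update_self] at this
  · refine Set.Countable.mono ?_ (Set.countable_iUnion hD₂)
    rintro ξ ⟨h1, h2⟩
    have h3 := h1 j hj
    rw [Lg_iff hT htj] at h3
    obtain ⟨i, hi⟩ := h3.nonempty
    have hi' : Lg T ((T (t j)).1 i) (c₂ j ∩ (T (t j)).2 i) :=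
      Lg_mono (by rintro x ⟨⟨h1, _⟩, h2⟩; exact ⟨h1, h2⟩) hi
    obtain ⟨l, hl, hl'⟩ := child_of_mem hT htj hidx₂ hQ₂ hcj₂.subset hi'
    refine mem_iUnion.2 ⟨l, ?_⟩
    rw [mem_DD_update, hl]
    refine ⟨fun p hp => ?_, ?_, ?_⟩
    · have := (hRef₂ l).sm p (by omega)
      rw [Function.update_of_ne hp.ne] at this
      exact Lg_shift (h1 p hp) this
    · refine Lg_mono ?_ hi
      rintro x ⟨⟨h1, h2⟩, h3⟩
      exact ⟨hl' ⟨h1, h3⟩, h2⟩
    · have := (hRef₂ l).sm n (by omega)
      rw [Function.update_self] at this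
      exact Lg_shift h2 this

end Pool.Agent.Helper46.Tuk
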