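import Pool.Agent.Helper46.Tuk.Basic

/-!
# The Tukey statements from the property of `main_star` (module TUK-TUKEY)
-/

namespace Pool.Agent.Helper46.Tuk

open Set Filter

variable {Ω : Type} [LinearOrder Ω] [OrderBot Ω] [IsOm1 Ω] {T : Ω → Lev Ω}

/-- the sets witnessing that `ω^ω` is below the ultrafilter -/
def tkF (T : Ω → Lev Ω) (δ : Ω) (g : ℕ → ℕ) : Set ℕ :=
  {x | ∀ i, x ∈ (T δ).2 i → ∀ j, j ≤ i → g j ≤ x}

theorem tk_mem (hT : WfT T) {one δ : Ω} (h1 : one ≠ ⊥) (hδ : one < δ) (g : ℕ → ℕ) :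
    tkF T δ g ∈ VV T := by
  have hδ0 : δ ≠ ⊥ := (bot_le.trans_lt hδ).ne'
  refine ⟨δ, fun h => ?_⟩
  rw [Lg_iff hT hδ0] at h
  obtain ⟨N, hN⟩ := Filter.eventually_atTop.1 ((hT δ hδ0).cof one hδ)
  obtain ⟨i, hi, hiN⟩ := h.exists_gt N
  rw [mem_ofPred_eq] at hi
  have hti : (T δ).1 i ≠ ⊥ := by
    intro h2
    have h3 := hN i hiN.le
    rw [h2] at h3
    exact h1 (le_bot_iff.1 h3)
  have hinf := infinite_of_Lg hT hti hi
  apply hinf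
  have hfin : (⋃ j ∈ Set.Iic i, Set.Iio (g j)).Finite :=
    (Set.finite_Iic i).biUnion fun j _ => Set.finite_Iio (g j)
  refine hfin.subset ?_
  rintro x ⟨hx, hxi⟩
  simp only [tkF, mem_compl_iff, mem_ofPred_eq, not_forall, not_le] at hx
  obtain ⟨i', hx', j, hj, hlt⟩ := hx
  have hii : i' = i := by
    by_contra hne
    exact Set.disjoint_left.1 ((hT δ hδ0).disj hne) hx' hxi
  subst hii
  exact Set.mem_biUnion (show j ∈ Set.Iic i' from hj) hlt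

/-- The frozen statement from a tower with the property of `main_star`. -/
theorem tukey_of_star (hT : IsTower T)
    (hs : ∀ B : Ω → Set ℕ, (∀ ξ, B ξ ∈ VV T) → ∃ (k : ℕ) (H : Set Ω), (∀ ξ ∈ H, ξ ≠ ⊥) ∧
      (⋂ ξ ∈ H, B ξ) ∈ VV T ∧ (⋂ ξ ∈ H, xx T ξ k) ∉ VV T) :
    ∃ U : Ultrafilter ℕ,
    (∃ f : (ℕ → ℕ) → Set ℕ, (∀ g, f g ∈ U) ∧
        ∀ B ∈ U, ∃ h : ℕ → ℕ, ∀ g, B ⊆ f g → g ≤ h) ∧
    (∃ f : Set ℕ → Set (ℕ × ℕ),
        (∀ A ∈ U, {n | {m | (n, m) ∈ f A} ∈ U} ∈ U) ∧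
        ∀ B : Set (ℕ × ℕ), {n | {m | (n, m) ∈ B} ∈ U} ∈ U →
          ∃ C ∈ U, ∀ A ∈ U, B ⊆ f A → C ⊆ A) ∧
    ¬ (∃ f : Set (ℕ × ℕ) → Set ℕ,
        (∀ A : Set (ℕ × ℕ), {n | {m | (n, m) ∈ A} ∈ U} ∈ U → f A ∈ U) ∧
        ∀ B ∈ U, ∃ C : Set (ℕ × ℕ), {n | {m | (n, m) ∈ C} ∈ U} ∈ U ∧
          ∀ A : Set (ℕ × ℕ), {n | {m | (n, m) ∈ A} ∈ U} ∈ U → B ⊆ f A → C ⊆ A) := by
  classical
  obtain ⟨U, hU⟩ := exists_ultrafilter hT
  obtain ⟨one, h1⟩ := exists_ne_bot (Ω := Ω)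
  obtain ⟨δ, hδ⟩ := exists_gt' one
  have hδ0 : δ ≠ ⊥ := (bot_le.trans_lt hδ).ne'
  refine ⟨U, ⟨tkF T δ, fun g => (hU _).2 (tk_mem hT.wf h1 hδ g), ?_⟩, ?_, ?_⟩
  · intro B hB
    have hL := Lg_of_mem hT.wf ((hU B).1 hB) δ
    rw [Lg_iff hT.wf hδ0] at hL
    have hex : ∀ n : ℕ, ∃ x, ∃ i, n ≤ i ∧ x ∈ B ∧ x ∈ (T δ).2 i := by
      intro n
      obtain ⟨i, hi, hin⟩ := hL.exists_gt n
      rw [mem_ofPred_eq] at hi
      have hne : (B ∩ (T δ).2 i).Nonempty := by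
        rw [Set.nonempty_iff_ne_empty]
        intro h
        rw [h] at hi
        exact not_Lg_empty T _ hi
      obtain ⟨x, hx1, hx2⟩ := hne
      exact ⟨x, i, hin.le, hx1, hx2⟩
    choose h i hi hB' hQ using hex
    refine ⟨h, fun g hg n => ?_⟩
    exact hg (hB' n) (i n) (hQ n) n (hi n)
  · refine ⟨fun A => {p | p.1 ∈ A}, ?_, ?_⟩
    · intro A hA
      refine Filter.mem_of_superset hA ?_
      intro n hn
      rw [mem_ofPred_eq]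
      refine Filter.mem_of_superset Filter.univ_mem ?_
      intro m _
      exact hn
    · intro B hB
      refine ⟨_, hB, ?_⟩
      intro A _ hBA n hn
      rw [mem_ofPred_eq] at hn
      obtain ⟨m, hm⟩ := U.nonempty_of_mem hn
      exact hBA hm
  · rintro ⟨f, hf1, hf2⟩
    -- the sets of pairs attached to `ξ`
    let P : Ω → Set (ℕ × ℕ) := fun ξ => {p | p.2 ∈ xx T ξ p.1}
    have hP : ∀ ξ, ξ ≠ ⊥ → {n | {m | (n, m) ∈ P ξ} ∈ U} ∈ U := by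
      intro ξ hξ
      refine Filter.mem_of_superset Filter.univ_mem ?_
      intro n _
      rw [mem_ofPred_eq]
      exact (hU _).2 (xx_mem_VV hT.wf hξ n)
    let B : Ω → Set ℕ := fun ξ => if ξ = ⊥ then Set.univ else f (P ξ)
    have hB : ∀ ξ, B ξ ∈ VV T := by
      intro ξ
      by_cases hξ : ξ = ⊥
      · simp only [B, hξ, if_true]
        exact univ_mem_VV
      · simp only [B, hξ, if_false]
        exact (hU _).1 (hf1 _ (hP ξ hξ))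
    obtain ⟨k, H, hH, hA, hcon⟩ := hs B hB
    obtain ⟨C, hC, hC'⟩ := hf2 _ ((hU _).2 hA)
    have hCP : ∀ ξ ∈ H, C ⊆ P ξ := by
      intro ξ hξ
      apply hC' _ (hP ξ (hH ξ hξ))
      intro x hx
      have h2 := Set.mem_iInter₂.1 hx ξ hξ
      simp only [B, hH ξ hξ, if_false] at h2
      exact h2
    have hinf : {n | {m | (n, m) ∈ C} ∈ U}.Infinite :=
      infinite_of_Lg hT.wf hδ0 (Lg_of_mem hT.wf ((hU _).1 hC) δ)
    obtain ⟨n, hn, hkn⟩ := hinf.exists_gt k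
    rw [mem_ofPred_eq] at hn
    apply hcon
    refine VV_mono ((hU _).1 hn) ?_
    intro m hm
    rw [Set.mem_iInter₂]
    intro ξ hξ
    exact xx_anti T ξ hkn.le (hCP ξ hξ hm)

end Pool.Agent.Helper46.Tuk
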