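import Pool.Agent.Helper46.Tuk.Run

/-!
# Construction of a tower from the run principle (module TUK-TOWER)
-/

namespace Pool.Agent.Helper46.Tuk

open Set Filter

variable {Ω : Type} [LinearOrder Ω] [OrderBot Ω] [IsOm1 Ω]

/-- Transfinite recursion with choices. -/
theorem tw_rec {D : Type} (P : (Ω → D) → Ω → D → Prop) (d0 : D)
    (hloc : ∀ (T T' : Ω → D) (δ : Ω) (d : D), (∀ γ < δ, T γ = T' γ) → P T δ d → P T' δ d)
    (hex : ∀ (T : Ω → D) (δ : Ω), (∀ γ < δ, P T γ (T γ)) → ∃ d, P T δ d) :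
    ∃ T : Ω → D, ∀ δ, P T δ (T δ) := by
  classical
  let F : (δ : Ω) → ((γ : Ω) → γ < δ → D) → D := fun δ ih =>
    if h : ∃ d, P (fun γ => if h : γ < δ then ih γ h else d0) δ d then h.choose else d0
  let T : Ω → D := (wellFounded_lt (α := Ω)).fix F
  have hT : ∀ δ, T δ = F δ (fun γ _ => T γ) := fun δ => (wellFounded_lt (α := Ω)).fix_eq F δ
  refine ⟨T, fun δ => ?_⟩
  induction δ using WellFoundedLT.induction with
  | ind δ ih =>
    obtain ⟨d, hd⟩ := hex T δ ih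
    have hag : ∀ γ < δ, T γ = (fun γ => if _h : γ < δ then T γ else d0) γ := by
      intro γ hγ
      simp [hγ]
    have h : ∃ d, P (fun γ => if _h : γ < δ then T γ else d0) δ d :=
      ⟨d, hloc _ _ _ _ hag hd⟩
    have h1 : T δ = h.choose := by
      rw [hT δ]
      exact dif_pos h
    rw [h1]
    exact hloc _ _ _ _ (fun γ hγ => (hag γ hγ).symm) h.choose_spec

/-- validity of a level is local -/
theorem tw_valid_congr {T T' : Ω → Lev Ω} {δ : Ω} (h : ∀ γ < δ, T γ = T' γ) {t : ℕ → Ω}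
    {Q : ℕ → Set ℕ} (hV : Valid T δ t Q) : Valid T' δ t Q := by
  refine ⟨hV.lt, hV.cof, hV.disj, hV.lg.mono ?_⟩
  intro i hi
  exact (Lg_congr (fun γ hγ => h γ (hγ.trans_lt (hV.lt i))) _).1 hi

/-- admissibility is local -/
theorem tw_adm_congr {T T' : Ω → Lev Ω} {δ : Ω} (h : ∀ γ < δ, T γ = T' γ) {o : ℕ → Out Ω}
    {Q : ℕ → Set ℕ} (hV : Adm T δ o Q) : Adm T' δ o Q := by
  refine ⟨tw_valid_congr h hV.valid, hV.sub, fun n i hi => hV.small n i ?_⟩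
  exact (Lg_congr (fun γ hγ => h γ (hγ.trans_lt (hV.valid.lt i))) _).2 hi

/-- one step of the default construction -/
theorem tw_step {T : Ω → Lev Ω} {δ : Ω}
    (hV : ∀ γ < δ, γ ≠ ⊥ → Valid T γ (T γ).1 (T γ).2) {R : Set ℕ}
    (hR : ∀ γ < δ, Lg T γ R) {s : Ω} (hs : s < δ) (hs0 : s ≠ ⊥) :
    ∃ Q, Q ⊆ R ∧ Lg T s Q ∧ ∀ γ < δ, Lg T γ (R \ Q) := by
  obtain ⟨P₁, P₂, h1, h2, h3, h4⟩ :=
    exists_split' hs0 (fun γ hγ => hV γ (hγ.trans_lt hs)) (hR s hs)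
  by_cases hA : ∀ γ < δ, Lg T γ (R \ P₁)
  · exact ⟨P₁, subset_union_left.trans h1, h3, hA⟩
  by_cases hB : ∀ γ < δ, Lg T γ (R \ P₂)
  · exact ⟨P₂, subset_union_right.trans h1, h4, hB⟩
  exfalso
  push Not at hA hB
  obtain ⟨γ₁, hγ₁, hA⟩ := hA
  obtain ⟨γ₂, hγ₂, hB⟩ := hB
  have hm : max γ₁ γ₂ < δ := max_lt hγ₁ hγ₂
  have hVm : ∀ γ ≤ max γ₁ γ₂, γ ≠ ⊥ → Valid T γ (T γ).1 (T γ).2 :=
    fun γ hγ => hV γ (hγ.trans_lt hm)
  have hU : Lg T (max γ₁ γ₂) ((R \ P₁) ∪ (R \ P₂)) := by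
    refine Lg_mono ?_ (hR _ hm)
    intro x hx
    by_cases hx1 : x ∈ P₁
    · exact Or.inr ⟨hx, fun hx2 => Set.disjoint_left.1 h2 hx1 hx2⟩
    · exact Or.inl ⟨hx, hx1⟩
  rcases Lg_union hU with h | h
  · exact hA (Lg_of_le' hVm (le_max_left _ _) h)
  · exact hB (Lg_of_le' hVm (le_max_right _ _) h)

/-- there is always a valid level -/
theorem tw_default {T : Ω → Lev Ω} {δ : Ω} (hδ : δ ≠ ⊥)
    (hV : ∀ γ < δ, γ ≠ ⊥ → Valid T γ (T γ).1 (T γ).2) :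
    ∃ (t : ℕ → Ω) (Q : ℕ → Set ℕ), Valid T δ t Q := by
  classical
  by_cases hone : ∃ one : Ω, one ≠ ⊥ ∧ one < δ
  swap
  · push Not at hone
    have hb : ∀ γ < δ, γ = ⊥ := by
      intro γ hγ
      by_contra h
      exact absurd hγ (not_lt.2 (hone γ h))
    refine ⟨fun _ => ⊥, fun i => {i}, fun i => bot_lt_iff_ne_bot.2 hδ, ?_, ?_, ?_⟩
    · intro γ hγ
      rw [hb γ hγ]
      exact Filter.Eventually.of_forall fun _ => le_rfl
    · intro i j hij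
      exact Set.disjoint_singleton.2 hij
    · have : {i : ℕ | Lg T ⊥ ({i} : Set ℕ)} = Set.univ := by
        ext i
        simp [Lg_bot]
      rw [this]
      exact Set.infinite_univ
  obtain ⟨one, hone0, honeδ⟩ := hone
  obtain ⟨e, he⟩ := (IsOm1.ctbl δ).exists_eq_range (⟨one, honeδ⟩ : (Set.Iio δ).Nonempty)
  have heδ : ∀ n, e n < δ := fun n => by
    have : e n ∈ Set.Iio δ := by rw [he]; exact ⟨n, rfl⟩
    exact this
  let t : ℕ → Ω := fun n => Nat.rec (max one (e 0)) (fun n m => max m (e (n + 1))) n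
  have ht0 : t 0 = max one (e 0) := rfl
  have hts : ∀ n, t (n + 1) = max (t n) (e (n + 1)) := fun n => rfl
  have htδ : ∀ n, t n < δ := by
    intro n
    induction n with
    | zero => rw [ht0]; exact max_lt honeδ (heδ 0)
    | succ n ih => rw [hts]; exact max_lt ih (heδ _)
  have htm : Monotone t := monotone_nat_of_le_succ fun n => by rw [hts]; exact le_max_left _ _
  have hte : ∀ n, e n ≤ t n := by
    intro n
    cases n with
    | zero => rw [ht0]; exact le_max_right _ _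
    | succ n => rw [hts]; exact le_max_right _ _
  have ht1 : ∀ n, t n ≠ ⊥ := by
    intro n h
    have h1 : one ≤ t n := le_trans (by rw [ht0]; exact le_max_left _ _) (htm (Nat.zero_le n))
    rw [h] at h1
    exact hone0 (le_bot_iff.1 h1)
  have step : ∀ (n : ℕ) (R : {R : Set ℕ // ∀ γ < δ, Lg T γ R}),
      ∃ Q, Q ⊆ R.1 ∧ Lg T (t n) Q ∧ ∀ γ < δ, Lg T γ (R.1 \ Q) :=
    fun n R => tw_step hV R.2 (htδ n) (ht1 n)
  choose G hG1 hG2 hG3 using step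
  let R0 : {R : Set ℕ // ∀ γ < δ, Lg T γ R} :=
    ⟨Set.univ, fun γ hγ => Lg_univ' fun γ' hγ' => hV γ' (hγ'.trans_lt hγ)⟩
  let R : ℕ → {R : Set ℕ // ∀ γ < δ, Lg T γ R} := fun n =>
    Nat.rec R0 (fun n R => ⟨R.1 \ G n R, hG3 n R⟩) n
  have hRs : ∀ n, (R (n + 1)).1 = (R n).1 \ G n (R n) := fun n => rfl
  have hRanti : Antitone fun n => (R n).1 := antitone_nat_of_succ_le fun n => by
    change (R (n + 1)).1 ⊆ (R n).1
    rw [hRs]
    exact Set.sdiff_subset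
  have hdisj : ∀ m n, m < n → Disjoint (G m (R m)) (G n (R n)) := by
    intro m n hmn
    rw [Set.disjoint_left]
    intro x hx hx'
    have h1 : x ∈ (R n).1 := hG1 n (R n) hx'
    have h2 : x ∈ (R (m + 1)).1 := hRanti (Nat.succ_le_of_lt hmn) h1
    rw [hRs] at h2
    exact h2.2 hx
  refine ⟨t, fun n => G n (R n), htδ, ?_, ?_, ?_⟩
  · intro γ hγ
    have : γ ∈ Set.range e := by rw [← he]; exact hγ
    obtain ⟨n, rfl⟩ := this
    exact Filter.eventually_atTop.2 ⟨n, fun i hi => (hte n).trans (htm hi)⟩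
  · intro m n hmn
    rcases lt_or_gt_of_ne hmn with h | h
    · exact hdisj m n h
    · exact (hdisj n m h).symm
  · have : {i : ℕ | Lg T (t i) (G i (R i))} = Set.univ := by
      ext i
      simp only [mem_ofPred_eq, mem_univ, iff_true]
      exact hG2 i (R i)
    rw [this]
    exact Set.infinite_univ

/-- shrinking a valid level so that it decides a set -/
theorem tw_decide {T : Ω → Lev Ω} {δ : Ω} {t : ℕ → Ω} {Q : ℕ → Set ℕ} (hV : Valid T δ t Q)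
    (r : Set ℕ) : ∃ Q' : ℕ → Set ℕ, (∀ i, Q' i ⊆ Q i) ∧ Valid T δ t Q' ∧
      ((∀ i, Q' i ⊆ r) ∨ ∀ i, Disjoint (Q' i) r) := by
  have hsub : {i | Lg T (t i) (Q i)} ⊆
      {i | Lg T (t i) (Q i ∩ r)} ∪ {i | Lg T (t i) (Q i \ r)} := by
    intro i hi
    have h1 : Lg T (t i) ((Q i ∩ r) ∪ (Q i \ r)) := by
      refine Lg_mono ?_ hi
      intro x hx
      by_cases h : x ∈ r
      · exact Or.inl ⟨hx, h⟩
      · exact Or.inr ⟨hx, h⟩
    exact Lg_union h1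
  rcases Set.infinite_union.1 (hV.lg.mono hsub) with h | h
  · refine ⟨fun i => Q i ∩ r, fun i => inter_subset_left, ⟨hV.lt, hV.cof, ?_, h⟩,
      Or.inl fun i => inter_subset_right⟩
    intro i j hij
    exact (hV.disj hij).mono inter_subset_left inter_subset_left
  · refine ⟨fun i => Q i \ r, fun i => Set.sdiff_subset, ⟨hV.lt, hV.cof, ?_, h⟩,
      Or.inr fun i => Set.disjoint_sdiff_left⟩
    intro i j hij
    exact (hV.disj hij).mono Set.sdiff_subset Set.sdiff_subset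

/-- subsets of admissible sequences that are valid are admissible -/
theorem tw_adm_mono {T : Ω → Lev Ω} {δ : Ω} {o : ℕ → Out Ω} {Q Q' : ℕ → Set ℕ}
    (h : Adm T δ o Q) (hQ : ∀ i, Q' i ⊆ Q i)
    (hV : Valid T δ (fun i => (o (i + 1)).2.2) Q') : Adm T δ o Q' :=
  ⟨hV, fun n i => (hQ i).trans (h.sub n i),
    fun n i hi => h.small n i (Lg_mono (Set.sdiff_subset_sdiff_left (hQ i)) hi)⟩

/-- The requirement on the level `δ` of the tower. -/
def tw_P (b : Ω → ℕ → Out Ω) (T : Ω → Lev Ω) (δ : Ω) (d : Lev Ω) : Prop :=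
  δ = ⊥ ∨ (Valid T δ d.1 d.2 ∧
    ((∀ i, d.2 i ⊆ (b δ 0).1 0) ∨ ∀ i, Disjoint (d.2 i) ((b δ 0).1 0)) ∧
    ((∃ Q, Adm T δ (b δ) Q) → d.1 = (fun i => (b δ (i + 1)).2.2) ∧ Adm T δ (b δ) d.2))

theorem tw_exists (b : Ω → ℕ → Out Ω) : ∃ T : Ω → Lev Ω, ∀ δ, tw_P b T δ (T δ) := by
  refine tw_rec (tw_P b) (fun _ => ⊥, fun _ => ∅) ?_ ?_
  · rintro T T' δ d hag (h | ⟨h1, h2, h3⟩)
    · exact Or.inl h
    · refine Or.inr ⟨tw_valid_congr hag h1, h2, ?_⟩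
      rintro ⟨Q, hQ⟩
      obtain ⟨h4, h5⟩ := h3 ⟨Q, tw_adm_congr (fun γ hγ => (hag γ hγ).symm) hQ⟩
      exact ⟨h4, tw_adm_congr hag h5⟩
  · intro T δ hbelow
    by_cases hδ : δ = ⊥
    · exact ⟨(fun _ => ⊥, fun _ => ∅), Or.inl hδ⟩
    have hV : ∀ γ < δ, γ ≠ ⊥ → Valid T γ (T γ).1 (T γ).2 := by
      intro γ hγ hγ0
      rcases hbelow γ hγ with h | h
      · exact absurd h hγ0
      · exact h.1
    by_cases hA : ∃ Q, Adm T δ (b δ) Q
    · obtain ⟨Q, hQ⟩ := hA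
      obtain ⟨Q', h1, h2, h3⟩ := tw_decide hQ.valid ((b δ 0).1 0)
      exact ⟨(fun i => (b δ (i + 1)).2.2, Q'), Or.inr ⟨h2, h3, fun _ =>
        ⟨rfl, tw_adm_mono hQ h1 h2⟩⟩⟩
    · obtain ⟨t, Q, hQ⟩ := tw_default hδ hV
      obtain ⟨Q', h1, h2, h3⟩ := tw_decide hQ ((b δ 0).1 0)
      exact ⟨(t, Q'), Or.inr ⟨h2, h3, fun h => absurd h hA⟩⟩

/-- The run principle gives a tower. -/
theorem exists_tower (e : Ω → ℕ → Ω) (b : Ω → ℕ → Out Ω) (h : RunPr e b) :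
    ∃ T : Ω → Lev Ω, IsTower T := by
  obtain ⟨T, hT⟩ := tw_exists b
  have hT' : ∀ δ, δ ≠ ⊥ → Valid T δ (T δ).1 (T δ).2 ∧
      ((∀ i, (T δ).2 i ⊆ (b δ 0).1 0) ∨ ∀ i, Disjoint ((T δ).2 i) ((b δ 0).1 0)) ∧
      ((∃ Q, Adm T δ (b δ) Q) →
        (T δ).1 = (fun i => (b δ (i + 1)).2.2) ∧ Adm T δ (b δ) (T δ).2) :=
    fun δ hδ => (hT δ).resolve_left hδ
  refine ⟨T, fun δ hδ => (hT' δ hδ).1, ?_, ?_⟩
  · intro X
    obtain ⟨δ, hδ, r, -, -, -, -, hr⟩ := h Unit () (fun _ _ _ => True)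
      (fun _ _ => ⟨(), trivial⟩) (fun _ => (fun _ => X, fun _ => Set.univ, ⊥)) (fun _ => ⊥)
    refine ⟨δ, hδ, ?_⟩
    have h0 : (b δ 0).1 0 = X := by
      rw [← hr 0]
    have h1 := (hT' δ hδ).2.1
    rw [h0] at h1
    exact h1
  · intro S s0 Step hStep out β
    obtain ⟨δ, hδ, r, h1, h2, h3, h4, h5⟩ := h S s0 Step hStep out β
    refine ⟨δ, hδ, e δ, r, h1, h2, h3, h4, ?_⟩
    have h6 : (fun n => out (r n)) = b δ := funext h5
    have h7 : (fun i => (out (r (i + 1))).2.2) = fun i => (b δ (i + 1)).2.2 := by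
      funext i
      rw [h5]
    rw [h6, h7]
    exact (hT' δ hδ).2.2

end Pool.Agent.Helper46.Tuk
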