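import Pool.Agent.Helper46.Tuk.Basic

/-!
# TUK-B1: the empty configuration is live for some `k`
-/

namespace Pool.Agent.Helper46.Tuk

open Set Filter

variable {Ω : Type} [LinearOrder Ω] [OrderBot Ω] [IsOm1 Ω]
variable {T : Ω → Lev Ω} {B : Ω → Set ℕ} {k n : ℕ} {t : ℕ → Ω} {c : ℕ → Set ℕ}

/-- the states of the construction -/
structure B1St (T : Ω → Lev Ω) (B : Ω → Set ℕ) (gs : Ω) where
  n : ℕ
  q : ℕ → Set ℕ
  τ : ℕ → Ω
  η : Ω
  Y : Set ℕ
  hY : Y ∉ VV T
  qY : ∀ i < n, q i ⊆ Y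
  disj : ∀ i < n, ∀ j < n, i ≠ j → Disjoint (q i) (q j)
  gη : gs ≤ η
  lg : ∀ i < n, Lg T (τ i) (q i)
  le : ∀ i < n, τ i ≤ η
  cnt : ∀ i < n, ∀ ξ, Lg T (τ i) (q i ∩ (B ξ \ xx T ξ (i + 1))) → ξ ≤ η

/-- the steps of the construction -/
def B1Step {gs : Ω} (s : B1St T B gs) (e : Ω) (s' : B1St T B gs) : Prop :=
  s'.n = s.n + 1 ∧ (∀ i < s.n, s'.q i = s.q i) ∧ (∀ i < s.n, s'.τ i = s.τ i) ∧ e ≤ s'.η ∧
    s.η ≤ s'.η ∧ s.η ≤ s'.τ s.n

theorem b1_kk (h : ∃ (t : ℕ → Ω) (c : ℕ → Set ℕ), ¬ LL T B k 0 t c) :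
    ∃ g : Ω, ∀ γ, g ≤ γ → ∀ P, Lg T γ P → ∃ P' ⊆ P, Lg T γ P' ∧
      {ξ | Lg T γ (P' ∩ (B ξ \ xx T ξ k))}.Countable := by
  obtain ⟨t, c, h⟩ := h
  unfold LL at h
  push Not at h
  obtain ⟨c', γ₁, h1, h2⟩ := h (fun j hj => absurd hj (Nat.not_lt_zero j))
  refine ⟨γ₁, fun γ hγ P hP => ?_⟩
  obtain ⟨c'', P', h3, h4, h5, h6⟩ := h2 γ hγ c'
    (Ref.refl fun j hj => absurd hj (Nat.not_lt_zero j)) P hP
  refine ⟨P', h4, h5, h6.mono ?_⟩
  intro ξ hξ
  exact ⟨fun j hj => absurd hj (Nat.not_lt_zero j), hξ⟩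

theorem b1_step (hT : IsTower T) {gs : Ω} (hgs : gs ≠ ⊥)
    (hk : ∀ k, ∀ γ, gs ≤ γ → ∀ P, Lg T γ P → ∃ P' ⊆ P, Lg T γ P' ∧
      {ξ | Lg T γ (P' ∩ (B ξ \ xx T ξ k))}.Countable)
    (s : B1St T B gs) (e : Ω) : ∃ s', B1Step s e s' := by
  obtain ⟨θ, hθ⟩ := exists_theta hT.wf (compl_mem_of_notMem hT s.hY)
  set γ : Ω := max (max s.η e) θ with hγdef
  have hγη : s.η ≤ γ := (le_max_left _ _).trans (le_max_left _ _)
  have hγe : e ≤ γ := (le_max_right _ _).trans (le_max_left _ _)
  have hγθ : θ ≤ γ := le_max_right _ _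
  have hγg : gs ≤ γ := s.gη.trans hγη
  have hγ : γ ≠ ⊥ := by
    intro h
    rw [h, le_bot_iff] at hγg
    exact hgs hγg
  have h1 : ¬ Lg T γ s.Y := by
    have := hθ γ hγθ
    rwa [compl_compl] at this
  have h2 : Lg T γ s.Yᶜ := by
    have h3 := Lg_univ hT.wf γ
    rw [← union_compl_self s.Y] at h3
    exact (Lg_union h3).resolve_left h1
  obtain ⟨P, hPY, hP, hPV⟩ := exists_split hT hγ h2
  obtain ⟨P', hP'P, hP', hcnt⟩ := hk (s.n + 1) γ hγg P hP
  obtain ⟨ζ, hζ⟩ := exists_gt_of_countable _ hcnt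
  have hP'V : P' ∉ VV T := fun h => hPV (VV_mono h hP'P)
  have hdisj : ∀ i < s.n, Disjoint (s.q i) P' := by
    intro i hi
    rw [Set.disjoint_left]
    intro x hx hx'
    exact hPY (hP'P hx') (s.qY i hi hx)
  refine ⟨⟨s.n + 1, fun i => if i < s.n then s.q i else P', fun i => if i < s.n then s.τ i else γ,
    max γ ζ, s.Y ∪ P', union_notMem hT s.hY hP'V, ?_, ?_, hγg.trans (le_max_left _ _), ?_, ?_,
    ?_⟩, ?_⟩
  · intro i hi
    by_cases h : i < s.n
    · simp only [h, if_true]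
      exact (s.qY i h).trans subset_union_left
    · simp only [h, if_false]
      exact subset_union_right
  · intro i hi j hj hij
    by_cases h : i < s.n
    · by_cases h' : j < s.n
      · simp only [h, h', if_true]
        exact s.disj i h j h' hij
      · simp only [h, h', if_true, if_false]
        exact hdisj i h
    · by_cases h' : j < s.n
      · simp only [h, h', if_true, if_false]
        exact (hdisj j h').symm
      · omega
  · intro i hi
    by_cases h : i < s.n
    · simp only [h, if_true]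
      exact s.lg i h
    · simp only [h, if_false]
      exact hP'
  · intro i hi
    by_cases h : i < s.n
    · simp only [h, if_true]
      exact ((s.le i h).trans hγη).trans (le_max_left _ _)
    · simp only [h, if_false]
      exact le_max_left _ _
  · intro i hi ξ hξ
    by_cases h : i < s.n
    · simp only [h, if_true] at hξ
      exact ((s.cnt i h ξ hξ).trans hγη).trans (le_max_left _ _)
    · simp only [h, if_false] at hξ
      have hi' : i = s.n := by omega
      subst hi'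
      exact (hζ ξ hξ).le.trans (le_max_right _ _)
  · refine ⟨rfl, ?_, ?_, hγe.trans (le_max_left _ _), hγη.trans (le_max_left _ _), ?_⟩
    · intro i hi
      simp only [hi, if_true]
    · intro i hi
      simp only [hi, if_true]
    · simp only [lt_irrefl, if_false]
      exact hγη

theorem exists_LL_zero (hT : IsTower T) (hB : ∀ ξ, B ξ ∈ VV T) :
    ∃ k, ∀ (t : ℕ → Ω) (c : ℕ → Set ℕ), LL T B k 0 t c := by
  by_contra hcon
  push Not at hcon
  choose g hg using fun k => b1_kk (T := T) (B := B) (k := k) (hcon k)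
  obtain ⟨gs, hgs⟩ := exists_gt_seq g
  have hgs0 : gs ≠ ⊥ := (bot_le.trans_lt (hgs 0)).ne'
  have hk : ∀ k, ∀ γ, gs ≤ γ → ∀ P, Lg T γ P → ∃ P' ⊆ P, Lg T γ P' ∧
      {ξ | Lg T γ (P' ∩ (B ξ \ xx T ξ k))}.Countable :=
    fun k γ hγ P hP => hg k γ ((hgs k).le.trans hγ) P hP
  let s0 : B1St T B gs := ⟨0, fun _ => ∅, fun _ => ⊥, gs, ∅, empty_notMem_VV hT.wf,
    fun i hi => absurd hi (Nat.not_lt_zero i), fun i hi => absurd hi (Nat.not_lt_zero i),
    le_rfl, fun i hi => absurd hi (Nat.not_lt_zero i), fun i hi => absurd hi (Nat.not_lt_zero i),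
    fun i hi => absurd hi (Nat.not_lt_zero i)⟩
  classical
  let out : B1St T B gs → Out Ω := fun s =>
    (fun i => if i < s.n then s.q i else Set.univ, fun _ => Set.univ,
      if s.n = 0 then ⊥ else s.τ (s.n - 1))
  obtain ⟨δ, hδ, e, r, he, hr0, hrs, hrβ, hAdm⟩ :=
    hT.run (B1St T B gs) s0 B1Step (b1_step hT hgs0 hk) out (fun s => s.η)
  have hn : ∀ m, (r m).n = m := by
    intro m
    induction m with
    | zero => rw [hr0]
    | succ m ih => rw [(hrs m).1, ih]
  have hq : ∀ i m, i < m → (r m).q i = (r (i + 1)).q i := by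
    intro i m hm
    induction m with
    | zero => omega
    | succ m ih =>
      rcases Nat.lt_succ_iff_lt_or_eq.1 hm with h | h
      · rw [(hrs m).2.1 i (by rw [hn]; exact h), ih h]
      · rw [h]
  have hτ : ∀ i m, i < m → (r m).τ i = (r (i + 1)).τ i := by
    intro i m hm
    induction m with
    | zero => omega
    | succ m ih =>
      rcases Nat.lt_succ_iff_lt_or_eq.1 hm with h | h
      · rw [(hrs m).2.2.1 i (by rw [hn]; exact h), ih h]
      · rw [h]
  have hη : Monotone fun m => (r m).η := monotone_nat_of_le_succ fun m => (hrs m).2.2.2.2.1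
  have hout : ∀ i, (out (r (i + 1))).2.2 = (r (i + 1)).τ i := by
    intro i
    simp only [out, hn, Nat.add_eq_zero_iff, one_ne_zero, and_false, if_false,
      Nat.add_sub_cancel]
  have hadm : Adm T δ (fun n => out (r n)) (fun i => (r (i + 1)).q i) := by
    refine ⟨⟨?_, ?_, ?_, ?_⟩, ?_, ?_⟩
    · intro i
      simp only [hout]
      exact ((r (i + 1)).le i (by rw [hn]; omega)).trans_lt (hrβ (i + 1))
    · intro γ hγ
      obtain ⟨m, rfl⟩ := he γ hγ
      filter_upwards [Filter.eventually_ge_atTop (m + 1)] with i hi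
      simp only [hout]
      have h1 := (hrs i).2.2.2.2.2
      rw [hn] at h1
      have h2 := (hrs m).2.2.2.1
      exact h2.trans ((hη hi).trans h1)
    · intro i j hij
      have h1 : ∀ a b : ℕ, a < b → Disjoint ((r (a + 1)).q a) ((r (b + 1)).q b) := by
        intro a b hab
        rw [← hq a (b + 1) (by omega)]
        exact (r (b + 1)).disj a (by rw [hn]; omega) b (by rw [hn]; omega) (by omega)
      rcases lt_or_gt_of_ne hij with h | h
      · exact h1 i j h
      · exact (h1 j i h).symm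
    · have : {i | Lg T (out (r (i + 1))).2.2 ((r (i + 1)).q i)} = Set.univ := by
        ext i
        simp only [mem_ofPred_eq, mem_univ, iff_true, hout]
        exact (r (i + 1)).lg i (by rw [hn]; omega)
      rw [this]
      exact Set.infinite_univ
    · intro m i
      simp only [out, hn]
      by_cases h : i < m
      · simp only [h, if_true]
        rw [hq i m h]
      · simp only [h, if_false]
        exact subset_univ _
    · intro m i
      have : (r (i + 1)).q i \ (out (r m)).2.1 i = ∅ := by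
        simp only [out, sdiff_univ]
      rw [this]
      exact not_Lg_empty T _
  obtain ⟨h1, h2⟩ := hAdm ⟨_, hadm⟩
  have h3 := Lg_of_mem hT.wf (hB δ) δ
  rw [Lg_iff hT.wf hδ] at h3
  obtain ⟨i, hi⟩ := h3.nonempty
  rw [mem_ofPred_eq, h1] at hi
  simp only [hout] at hi
  have h4 : (T δ).2 i ⊆ (r (i + 1)).q i := by
    have := h2.sub (i + 1) i
    simp only [out, hn, Nat.lt_succ_self, if_true] at this
    exact this
  have h5 : Lg T ((r (i + 1)).τ i) ((r (i + 1)).q i ∩ (B δ \ xx T δ (i + 1))) := by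
    refine Lg_mono ?_ hi
    rintro x ⟨hx1, hx2⟩
    refine ⟨h4 hx2, hx1, fun hx3 => ?_⟩
    simp only [xx, mem_iUnion, exists_prop] at hx3
    obtain ⟨j, hj, hxj⟩ := hx3
    have hne : i ≠ j := by omega
    exact Set.disjoint_left.1 ((hT.wf δ hδ).disj hne) hx2 hxj
  exact absurd ((r (i + 1)).cnt i (by rw [hn]; omega) δ h5) (not_le.2 (hrβ (i + 1)))

end Pool.Agent.Helper46.Tuk
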