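import Pool.Agent.Helper46.Tuk.PI

/-!
# One more piece of large type for a live configuration (module TUK-B2)
-/

namespace Pool.Agent.Helper46.Tuk

open Set Filter

variable {Ω : Type} [LinearOrder Ω] [OrderBot Ω] [IsOm1 Ω]
variable {T : Ω → Lev Ω} {B : Ω → Set ℕ} {k n : ℕ} {t : ℕ → Ω} {c : ℕ → Set ℕ}

/-! ## Configurations with one more piece -/

theorem b2_upd_lt {α : Type} {f : ℕ → α} {j : ℕ} (hj : j < n) {a : α} :
    Function.update f n a j = f j := Function.update_of_ne hj.ne a f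

theorem b2_refS {γ : Ω} {c c' : ℕ → Set ℕ} {P P' : Set ℕ} (h : ∀ j < n, c' j ⊆ c j)
    (h' : ∀ j < n, Lg T (t j) (c' j)) (hP : P' ⊆ P) (hL : Lg T γ P') :
    Ref T (n + 1) (Function.update t n γ) (Function.update c' n P') (Function.update c n P) := by
  refine Ref.of_subset (fun j hj => ?_) (fun j hj => ?_)
  · rcases Nat.lt_succ_iff_lt_or_eq.1 hj with hj | rfl
    · rw [b2_upd_lt hj, b2_upd_lt hj]; exact h' j hj
    · rw [Function.update_self, Function.update_self]; exact hL
  · rcases Nat.lt_succ_iff_lt_or_eq.1 hj with hj | rfl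
    · rw [b2_upd_lt hj, b2_upd_lt hj]; exact h j hj
    · rw [Function.update_self, Function.update_self]; exact hP

theorem b2_DD_sub {γ α : Ω} {c c' : ℕ → Set ℕ} {Q Q' P P' : Set ℕ} (h : ∀ j < n, c' j ⊆ c j)
    (hQ : Q' ⊆ Q) (hP : P' ⊆ P) :
    DD T B k (n + 1) (Function.update t n α) (Function.update c' n Q') γ P' ⊆
      DD T B k (n + 1) (Function.update t n α) (Function.update c n Q) γ P := by
  refine DD_mono (fun j hj => ?_) ?_
  · have : Function.update c' n Q' j ⊆ Function.update c n Q j := by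
      rcases Nat.lt_succ_iff_lt_or_eq.1 hj with hj | rfl
      · rw [b2_upd_lt hj, b2_upd_lt hj]; exact h j hj
      · rw [Function.update_self, Function.update_self]; exact hQ
    rw [sdiff_eq_empty.2 this]
    exact not_Lg_empty T _
  · rw [sdiff_eq_empty.2 hP]
    exact not_Lg_empty T _

/-- successively applying `KK` to the configurations `(d, q l)`, `l < i` -/
theorem b2_iter {γ η : Ω} {d : ℕ → Set ℕ} {q : ℕ → Set ℕ} {τ : ℕ → Ω} {i : ℕ}
    (hK : ∀ l < i, KK T B k (n + 1) (Function.update t n (τ l)) (Function.update d n (q l)) η)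
    (hηγ : η ≤ γ)
    (D₀ : ℕ → Set ℕ) (hD₀ : ∀ j < n, D₀ j ⊆ d j) (hD₀L : ∀ j < n, Lg T (t j) (D₀ j))
    (hq : ∀ l < i, Lg T (τ l) (q l)) (P₃ : Set ℕ) (hP₃ : Lg T γ P₃) :
    ∀ m ≤ i, ∃ (D : ℕ → Set ℕ) (Q : ℕ → Set ℕ) (P : Set ℕ),
      (∀ j < n, D j ⊆ D₀ j ∧ Lg T (t j) (D j)) ∧ (∀ l < i, Q l ⊆ q l ∧ Lg T (τ l) (Q l)) ∧
      P ⊆ P₃ ∧ Lg T γ P ∧
      ∀ l < m, (DD T B k (n + 1) (Function.update t n (τ l)) (Function.update D n (Q l)) γ
        P).Countable := by
  intro m
  induction m with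
  | zero =>
    intro _
    exact ⟨D₀, q, P₃, fun j hj => ⟨Subset.rfl, hD₀L j hj⟩, fun l hl => ⟨Subset.rfl, hq l hl⟩,
      Subset.rfl, hP₃, fun l hl => absurd hl (Nat.not_lt_zero _)⟩
  | succ m ih =>
    intro hm
    obtain ⟨D, Q, P, hD, hQ, hP, hPL, hC⟩ := ih (Nat.le_of_succ_le hm)
    have hmi : m < i := hm
    have href : Ref T (n + 1) (Function.update t n (τ m)) (Function.update D n (Q m))
        (Function.update d n (q m)) :=
      b2_refS (fun j hj => (hD j hj).1.trans (hD₀ j hj)) (fun j hj => (hD j hj).2)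
        (hQ m hmi).1 (hQ m hmi).2
    obtain ⟨c'', P', h1, h2, h3, h4⟩ := hK m hmi γ hηγ _ href P hPL
    have h1i := h1.inter
    have hDj : ∀ j < n, Lg T (t j) (c'' j ∩ D j) := by
      intro j hj
      have := h1i j (Nat.lt_succ_of_lt hj)
      rwa [b2_upd_lt hj, b2_upd_lt hj] at this
    have hQm : Lg T (τ m) (c'' n ∩ Q m) := by
      have := h1i n (Nat.lt_succ_self n)
      rwa [Function.update_self, Function.update_self] at this
    refine ⟨fun j => c'' j ∩ D j, Function.update Q m (c'' n ∩ Q m), P',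
      fun j hj => ⟨inter_subset_right.trans (hD j hj).1, hDj j hj⟩, ?_, h2.trans hP, h3, ?_⟩
    · intro l hl
      by_cases hlm : l = m
      · subst hlm
        rw [Function.update_self]
        exact ⟨inter_subset_right.trans (hQ l hl).1, hQm⟩
      · rw [Function.update_of_ne hlm]
        exact hQ l hl
    · intro l hl
      by_cases hlm : l = m
      · subst hlm
        rw [Function.update_self]
        refine h4.mono (DD_mono (fun j hj => ?_) ?_)
        · have : Function.update (fun j => c'' j ∩ D j) n (c'' n ∩ Q l) j ⊆ c'' j := by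
            rcases Nat.lt_succ_iff_lt_or_eq.1 hj with hj | rfl
            · rw [b2_upd_lt hj]; exact inter_subset_left
            · rw [Function.update_self]; exact inter_subset_left
          rw [sdiff_eq_empty.2 this]
          exact not_Lg_empty T _
        · rw [sdiff_self]
          exact not_Lg_empty T _
      · rw [Function.update_of_ne hlm]
        have hlm' : l < m := lt_of_le_of_ne (Nat.lt_succ_iff.1 hl) hlm
        exact (hC l hlm').mono (b2_DD_sub (fun j _ => inter_subset_right) Subset.rfl h2)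

/-! ## The states -/

/-- The states of the run in the proof of `top_ext`. -/
structure b2_St (T : Ω → Lev Ω) (B : Ω → Set ℕ) (k n : ℕ) (t : ℕ → Ω) (c : ℕ → Set ℕ)
    (γ₀ : Ω) : Type where
  i : ℕ
  d : ℕ → Set ℕ
  q : ℕ → Set ℕ
  τ : ℕ → Ω
  η : Ω
  Y : Set ℕ
  hη : η ≠ ⊥
  hγ : γ₀ ≤ η
  hd : ∀ j < n, d j ⊆ c j ∧ Lg T (t j) (d j)
  hτ : ∀ l < i, τ l ≠ ⊥ ∧ τ l ≤ η
  hq : ∀ l < i, Lg T (τ l) (q l) ∧ q l ⊆ Y
  hK : ∀ l < i, KK T B k (n + 1) (Function.update t n (τ l)) (Function.update d n (q l)) η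
  hD : ∀ l l', l < l' → l' < i → (DD T B k (n + 1) (Function.update t n (τ l))
    (Function.update d n (q l)) (τ l') (q l')).Countable
  hY : Y ∉ VV T

variable {γ₀ : Ω}

/-- The steps of the run in the proof of `top_ext`. -/
structure b2_Step (s : b2_St T B k n t c γ₀) (e : Ω) (s' : b2_St T B k n t c γ₀) : Prop where
  i : s'.i = s.i + 1
  d : ∀ j < n, s'.d j ⊆ s.d j
  q : ∀ l < s.i, s'.q l ⊆ s.q l
  τ : ∀ l < s.i, s'.τ l = s.τ l
  dj : Disjoint (s'.q s.i) s.Y
  Y : s.Y ⊆ s'.Y
  τe : max s.η e ≤ s'.τ s.i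
  ηe : max s.η e ≤ s'.η

theorem b2_step_exists (hT : IsTower T) (h : LL T B k n t c)
    (hN : ∀ γ, γ₀ ≤ γ → ∀ (c' : ℕ → Set ℕ) (P : Set ℕ), Ref T n t c' c → Lg T γ P →
      (∀ c'' P', Ref T n t c'' c' → P' ⊆ P → Lg T γ P' →
        ¬ (DD T B k n t c'' γ P').Countable) →
      ¬ LL T B k (n + 1) (Function.update t n γ) (Function.update c' n P))
    (s : b2_St T B k n t c γ₀) (e : Ω) : ∃ s', b2_Step s e s' := by
  obtain ⟨θ, hθ⟩ := exists_theta hT.wf (compl_mem_of_notMem hT s.hY)
  simp only [compl_compl] at hθ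
  have hsd : Ref T n t s.d c := Ref.of_subset (fun j hj => (s.hd j hj).2) fun j hj => (s.hd j hj).1
  have h1 := h.2 s.d (max (max s.η e) θ) hsd
  unfold KK at h1
  push Not at h1
  obtain ⟨γ, hγ, c', hc', P, hP, hA⟩ := h1
  have hηγ : s.η ≤ γ := (le_max_left _ _).trans ((le_max_left _ _).trans hγ)
  have heγ : max s.η e ≤ γ := (le_max_left _ _).trans hγ
  have hθγ : θ ≤ γ := (le_max_right _ _).trans hγ
  have hγb : γ ≠ ⊥ := fun h0 => s.hη (le_bot_iff.1 (h0 ▸ hηγ))
  have hPY : Lg T γ (P \ s.Y) := by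
    have h2 : Lg T γ ((P \ s.Y) ∪ s.Y) := by
      refine Lg_mono ?_ hP
      intro x hx
      by_cases hxY : x ∈ s.Y
      · exact Or.inr hxY
      · exact Or.inl ⟨hx, hxY⟩
    exact (Lg_union h2).resolve_right (hθ γ hθγ)
  obtain ⟨P₂, hP₂, hP₂L, hP₂V⟩ := exists_split hT hγb hPY
  have hc'c : Ref T n t c' c := hc'.trans hsd
  have h2 := hN γ (s.hγ.trans hηγ) c' P₂ hc'c hP₂L (fun c'' P' a b d' =>
    hA c'' P' a (b.trans (hP₂.trans sdiff_subset)) d')
  have h3 : ∀ j < n + 1, Lg T (Function.update t n γ j) (Function.update c' n P₂ j) := by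
    intro j hj
    rcases Nat.lt_succ_iff_lt_or_eq.1 hj with hj | rfl
    · rw [b2_upd_lt hj, b2_upd_lt hj]; exact hc'.lg j hj
    · rw [Function.update_self, Function.update_self]; exact hP₂L
  have h4 : ∃ cs γs, Ref T (n + 1) (Function.update t n γ) cs (Function.update c' n P₂) ∧
      KK T B k (n + 1) (Function.update t n γ) cs γs := by
    by_contra hcon
    push Not at hcon
    exact h2 ⟨h3, fun a b r => hcon a b r⟩
  obtain ⟨cs, γs, hcs, hKs⟩ := h4
  have hcsj : ∀ j < n, Lg T (t j) (cs j) ∧ ¬ Lg T (t j) (cs j \ c' j) := by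
    intro j hj
    have a := hcs.lg j (Nat.lt_succ_of_lt hj)
    have b := hcs.sm j (Nat.lt_succ_of_lt hj)
    rw [b2_upd_lt hj] at a
    rw [b2_upd_lt hj, b2_upd_lt hj] at b
    exact ⟨a, b⟩
  have hcsn : Lg T γ (cs n ∩ P₂) := by
    have a := hcs.inter n (Nat.lt_succ_self n)
    rwa [Function.update_self, Function.update_self] at a
  have hD₀L : ∀ j < n, Lg T (t j) (cs j ∩ s.d j) := fun j hj =>
    Lg_inter_of_diff (hcsj j hj).1 (small_diff_trans (hcsj j hj).2 (hc'.sm j hj))
  obtain ⟨D, Q, P', hD, hQ, hP', hP'L, hC⟩ := b2_iter s.hK hηγ (fun j => cs j ∩ s.d j)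
    (fun j _ => inter_subset_right) hD₀L (fun l hl => (s.hq l hl).1) _ hcsn s.i le_rfl
  have hP'P₂ : P' ⊆ P₂ := hP'.trans inter_subset_right
  have hP'Y : P' ⊆ P \ s.Y := hP'P₂.trans hP₂
  have hq1 : ∀ l < s.i, Function.update Q s.i P' l = Q l := fun l hl =>
    Function.update_of_ne hl.ne _ _
  have hτ1 : ∀ l < s.i, Function.update s.τ s.i γ l = s.τ l := fun l hl =>
    Function.update_of_ne hl.ne _ _
  have hγη' : γ ≤ max γ γs := le_max_left _ _
  refine ⟨{
    i := s.i + 1
    d := D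
    q := Function.update Q s.i P'
    τ := Function.update s.τ s.i γ
    η := max γ γs
    Y := s.Y ∪ P'
    hη := fun h0 => hγb (le_bot_iff.1 (h0 ▸ hγη'))
    hγ := (s.hγ.trans hηγ).trans hγη'
    hd := fun j hj => ⟨(hD j hj).1.trans (inter_subset_right.trans (s.hd j hj).1), (hD j hj).2⟩
    hτ := ?_
    hq := ?_
    hK := ?_
    hD := ?_
    hY := union_notMem hT s.hY fun hV => hP₂V (VV_mono hV hP'P₂) }, ?_⟩
  · intro l hl
    rcases Nat.lt_succ_iff_lt_or_eq.1 hl with hl | rfl
    · rw [hτ1 l hl]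
      exact ⟨(s.hτ l hl).1, (s.hτ l hl).2.trans (hηγ.trans hγη')⟩
    · rw [Function.update_self]
      exact ⟨hγb, hγη'⟩
  · intro l hl
    rcases Nat.lt_succ_iff_lt_or_eq.1 hl with hl | rfl
    · rw [hτ1 l hl, hq1 l hl]
      exact ⟨(hQ l hl).2, (hQ l hl).1.trans ((s.hq l hl).2.trans subset_union_left)⟩
    · rw [Function.update_self, Function.update_self]
      exact ⟨hP'L, subset_union_right⟩
  · intro l hl
    rcases Nat.lt_succ_iff_lt_or_eq.1 hl with hl | rfl
    · rw [hτ1 l hl, hq1 l hl]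
      exact KK_mono (s.hK l hl)
        (b2_refS (fun j hj => (hD j hj).1.trans inter_subset_right) (fun j hj => (hD j hj).2)
          (hQ l hl).1 (hQ l hl).2) (hηγ.trans hγη')
    · rw [Function.update_self, Function.update_self]
      refine KK_mono hKs (Ref.of_subset (fun j hj => ?_) (fun j hj => ?_)) (le_max_right _ _)
      · rcases Nat.lt_succ_iff_lt_or_eq.1 hj with hj | rfl
        · rw [b2_upd_lt hj, b2_upd_lt hj]; exact (hD j hj).2
        · rw [Function.update_self, Function.update_self]; exact hP'L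
      · rcases Nat.lt_succ_iff_lt_or_eq.1 hj with hj | rfl
        · rw [b2_upd_lt hj]; exact (hD j hj).1.trans inter_subset_left
        · rw [Function.update_self]; exact hP'.trans inter_subset_left
  · intro l l' hll' hl'
    rcases Nat.lt_succ_iff_lt_or_eq.1 hl' with hl' | rfl
    · rw [hτ1 l (hll'.trans hl'), hq1 l (hll'.trans hl'), hτ1 l' hl', hq1 l' hl']
      exact (s.hD l l' hll' hl').mono
        (b2_DD_sub (fun j hj => (hD j hj).1.trans inter_subset_right)
          (hQ l (hll'.trans hl')).1 (hQ l' hl').1)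
    · rw [hτ1 l hll', hq1 l hll', Function.update_self, Function.update_self]
      exact hC l hll'
  · exact {
      i := rfl
      d := fun j hj => (hD j hj).1.trans inter_subset_right
      q := fun l hl => by
        change Function.update Q s.i P' l ⊆ s.q l
        rw [hq1 l hl]; exact (hQ l hl).1
      τ := fun l hl => hτ1 l hl
      dj := by
        change Disjoint (Function.update Q s.i P' s.i) s.Y
        rw [Function.update_self]
        exact Set.disjoint_left.2 fun x hx => (hP'Y hx).2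
      Y := subset_union_left
      τe := by
        change max s.η e ≤ Function.update s.τ s.i γ s.i
        rw [Function.update_self]; exact heγ
      ηe := heγ.trans hγη' }

/-! ## The contradiction at the level of the run -/

theorem b2_pointed (hT : IsTower T) (h : LL T B k n t c)
    (hs : ∀ j < n, t j = ⊥ → (c j).Subsingleton)
    (hN : ∀ γ, γ₀ ≤ γ → ∀ (c' : ℕ → Set ℕ) (P : Set ℕ), Ref T n t c' c → Lg T γ P →
      (∀ c'' P', Ref T n t c'' c' → P' ⊆ P → Lg T γ P' →
        ¬ (DD T B k n t c'' γ P').Countable) →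
      ¬ LL T B k (n + 1) (Function.update t n γ) (Function.update c' n P)) : False := by
  obtain ⟨b, hb⟩ := exists_ne_bot (Ω := Ω)
  let s0 : b2_St T B k n t c γ₀ := {
    i := 0
    d := c
    q := fun _ => ∅
    τ := fun _ => ⊥
    η := max γ₀ b
    Y := ∅
    hη := fun h0 => hb (le_bot_iff.1 (h0 ▸ le_max_right γ₀ b))
    hγ := le_max_left _ _
    hd := fun j hj => ⟨Subset.rfl, h.1 j hj⟩
    hτ := fun l hl => absurd hl (Nat.not_lt_zero _)
    hq := fun l hl => absurd hl (Nat.not_lt_zero _)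
    hK := fun l hl => absurd hl (Nat.not_lt_zero _)
    hD := fun l l' _ hl => absurd hl (Nat.not_lt_zero _)
    hY := empty_notMem_VV hT.wf }
  let out : b2_St T B k n t c γ₀ → Out Ω := fun s =>
    (fun _ => Set.univ, fun l => if l < s.i then s.q l else Set.univ,
      if s.i = 0 then ⊥ else s.τ (s.i - 1))
  obtain ⟨δ, hδ, e, r, he, hr0, hstep, hβ, hadm⟩ := hT.run (b2_St T B k n t c γ₀) s0 b2_Step
    (b2_step_exists hT h hN) out (fun s => s.η)
  have hri : ∀ m, (r m).i = m := by
    intro m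
    induction m with
    | zero => rw [hr0]
    | succ m ih => rw [(hstep m).i, ih]
  have hstep' : ∀ m, (∀ l < m, (r (m + 1)).q l ⊆ (r m).q l) ∧
      (∀ l < m, (r (m + 1)).τ l = (r m).τ l) ∧ Disjoint ((r (m + 1)).q m) (r m).Y ∧
      max (r m).η (e m) ≤ (r (m + 1)).τ m := by
    intro m
    have h1 := (hstep m).q
    have h2 := (hstep m).τ
    have h3 := (hstep m).dj
    have h4 := (hstep m).τe
    rw [hri m] at h1 h2 h3 h4
    exact ⟨h1, h2, h3, h4⟩
  -- monotonicity
  have hqm : ∀ l m m', l < m → m ≤ m' → (r m').q l ⊆ (r m).q l := by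
    intro l m m' hl hm
    induction m', hm using Nat.le_induction with
    | base => exact Subset.rfl
    | succ m' hm ih => exact ((hstep' m').1 l (hl.trans_le hm)).trans ih
  have hτm : ∀ l m m', l < m → m ≤ m' → (r m').τ l = (r m).τ l := by
    intro l m m' hl hm
    induction m', hm using Nat.le_induction with
    | base => rfl
    | succ m' hm ih => rw [(hstep' m').2.1 l (hl.trans_le hm), ih]
  have hYm : ∀ m m', m ≤ m' → (r m).Y ⊆ (r m').Y := by
    intro m m' hm
    induction m', hm using Nat.le_induction with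
    | base => exact Subset.rfl
    | succ m' hm ih => exact ih.trans (hstep m').Y
  have hηm : ∀ m m', m ≤ m' → (r m).η ≤ (r m').η := by
    intro m m' hm
    induction m', hm using Nat.le_induction with
    | base => exact le_rfl
    | succ m' hm ih => exact ih.trans ((le_max_left _ _).trans (hstep m').ηe)
  set τ : ℕ → Ω := fun l => (r (l + 1)).τ l with hτdef
  have hτeq : ∀ l m, l < m → (r m).τ l = τ l := fun l m hl =>
    hτm l (l + 1) m (Nat.lt_succ_self l) hl
  have hout : ∀ i, (out (r (i + 1))).2.2 = τ i := by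
    intro i
    change (if (r (i + 1)).i = 0 then ⊥ else (r (i + 1)).τ ((r (i + 1)).i - 1)) = τ i
    rw [hri, if_neg (Nat.succ_ne_zero i), Nat.add_sub_cancel]
  have houtq : ∀ m i, i < m → (out (r m)).2.1 i = (r m).q i := by
    intro m i hi
    change (if i < (r m).i then (r m).q i else Set.univ) = _
    rw [hri, if_pos hi]
  have hτb : ∀ l, τ l ≠ ⊥ := fun l => ((r (l + 1)).hτ l (by rw [hri]; exact l.lt_succ_self)).1
  have hqL : ∀ l m, l < m → Lg T (τ l) ((r m).q l) := by
    intro l m hl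
    have := ((r m).hq l (by rw [hri]; exact hl)).1
    rwa [hτeq l m hl] at this
  have hqY : ∀ l m, l < m → (r m).q l ⊆ (r m).Y := fun l m hl =>
    ((r m).hq l (by rw [hri]; exact hl)).2
  -- the admissible sequence
  have hex : ∃ Q, Adm T δ (fun m => out (r m)) Q := by
    have hpi : ∀ l, ∃ R' ⊆ (r (l + 1)).q l, Lg T (τ l) R' ∧
        ∀ m, ¬ Lg T (τ l) (R' \ (r (l + 1 + m)).q l) := by
      intro l
      have := exists_pi hT.wf (hτb l) (fun m => (r (l + 1 + m)).q l)
        (fun m => hqm l (l + 1 + m) (l + 1 + (m + 1)) (by omega) (by omega))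
        (fun m => hqL l (l + 1 + m) (by omega))
      simpa using this
    choose Q hQ1 hQ2 hQ3 using hpi
    refine ⟨Q, ⟨⟨?_, ?_, ?_, ?_⟩, fun _ _ => subset_univ _, ?_⟩⟩
    · intro i
      change (out (r (i + 1))).2.2 < δ
      rw [hout]
      exact (((r (i + 1)).hτ i (by rw [hri]; exact i.lt_succ_self)).2).trans_lt (hβ (i + 1))
    · intro γ hγ
      obtain ⟨m, rfl⟩ := he γ hγ
      refine Filter.eventually_atTop.2 ⟨m + 1, fun i hi => ?_⟩
      change e m ≤ (out (r (i + 1))).2.2
      rw [hout]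
      refine ((le_max_right _ _).trans (hstep m).ηe).trans ((hηm (m + 1) i hi).trans ?_)
      exact (le_max_left _ _).trans (hstep' i).2.2.2
    · have key : ∀ l l', l < l' → Disjoint (Q l) (Q l') := by
        intro l l' hl
        have h1 : Q l ⊆ (r l').Y := (hQ1 l).trans ((hqY l (l + 1) l.lt_succ_self).trans
          (hYm (l + 1) l' hl))
        exact (((hstep' l').2.2.1).mono (hQ1 l') h1).symm
      intro l l' hne
      rcases lt_or_gt_of_ne hne with h1 | h1
      · exact key l l' h1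
      · exact (key l' l h1).symm
    · have : {i | Lg T ((out (r (i + 1))).2.2) (Q i)} = Set.univ := by
        ext i
        simp only [mem_ofPred_eq, mem_univ, iff_true]
        rw [hout]; exact hQ2 i
      rw [this]
      exact Set.infinite_univ
    · intro m i
      change ¬ Lg T ((out (r (i + 1))).2.2) (Q i \ (out (r m)).2.1 i)
      rw [hout]
      by_cases him : i < m
      · rw [houtq m i him]
        have := hQ3 i (m - (i + 1))
        rwa [show i + 1 + (m - (i + 1)) = m by omega] at this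
      · have : (out (r m)).2.1 i = Set.univ := by
          change (if i < (r m).i then (r m).q i else Set.univ) = _
          rw [hri, if_neg him]
        rw [this, sdiff_univ]
        exact not_Lg_empty T _
  obtain ⟨hT1, hT2⟩ := hadm hex
  have hTi : ∀ i, (T δ).1 i = τ i := fun i => by rw [hT1]; exact hout i
  have hTq : ∀ l m, l < m → ¬ Lg T (τ l) ((T δ).2 l \ (r m).q l) := by
    intro l m hl
    have := hT2.small m l
    change ¬ Lg T ((out (r (l + 1))).2.2) ((T δ).2 l \ (out (r m)).2.1 l) at this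
    rwa [hout, houtq m l hl] at this
  -- the limit configuration
  obtain ⟨cω, hcω0, hcω⟩ := exists_pi_config hT.wf (fun m => (r m).d) (n := n) (t := t)
    (fun m j hj => (hstep m).d j hj) (fun m j hj => ((r m).hd j hj).2)
    (fun j hj htj => (hs j hj htj).anti ((r 0).hd j hj).1)
  have hcωc : Ref T n t cω c := (hcω 0).trans
    (Ref.of_subset (fun j hj => ((r 0).hd j hj).2) fun j hj => ((r 0).hd j hj).1)
  have h1 := h.2 cω δ hcωc
  unfold KK at h1
  push Not at h1
  obtain ⟨γ, hγ, c'', hc'', P, hP, hA⟩ := h1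
  have hunc : ¬ (DD T B k n t c'' γ P).Countable := hA c'' P (Ref.refl hc''.lg) Subset.rfl hP
  set U : Set Ω := ⋃ m : ℕ, ⋃ l : ℕ, ⋃ l' : ℕ, ⋃ (_ : l < l' ∧ l' < m),
    DD T B k (n + 1) (Function.update t n (τ l)) (Function.update (r m).d n ((r m).q l)) (τ l')
      ((r m).q l') with hU
  have hUc : U.Countable := by
    refine Set.countable_iUnion fun m => Set.countable_iUnion fun l => Set.countable_iUnion
      fun l' => Set.countable_iUnion fun hl => ?_
    have := (r m).hD l l' hl.1 (by rw [hri]; exact hl.2)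
    rwa [hτeq l m (hl.1.trans hl.2), hτeq l' m hl.2] at this
  obtain ⟨ξ, hξD, hξU⟩ : ∃ ξ, ξ ∈ DD T B k n t c'' γ P ∧ ξ ∉ U := by
    by_contra hcon
    push Not at hcon
    exact hunc (hUc.mono hcon)
  have hLδ : Lg T δ (P ∩ (B ξ \ xx T ξ k)) := Lg_of_le hT.wf hγ hξD.2
  rw [Lg_iff hT.wf hδ] at hLδ
  obtain ⟨l, hl, -⟩ := hLδ.exists_gt 0
  obtain ⟨l', hl', hll'⟩ := hLδ.exists_gt l
  rw [mem_ofPred_eq, hTi] at hl hl'
  apply hξU
  refine mem_iUnion.2 ⟨l' + 1, mem_iUnion.2 ⟨l, mem_iUnion.2 ⟨l', mem_iUnion.2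
    ⟨⟨hll', l'.lt_succ_self⟩, ?_, ?_⟩⟩⟩⟩
  · intro j hj
    rcases Nat.lt_succ_iff_lt_or_eq.1 hj with hj | rfl
    · rw [b2_upd_lt hj, b2_upd_lt hj]
      exact Lg_shift (hξD.1 j hj)
        (small_diff_trans (hc''.sm j hj) ((hcω (l' + 1)).sm j hj))
    · rw [Function.update_self, Function.update_self]
      refine Lg_shift (X := (T δ).2 l) (Lg_mono ?_ hl) (hTq l (l' + 1) (by omega))
      rintro x ⟨⟨_, hx⟩, hx'⟩
      exact ⟨hx', hx.1⟩
  · refine Lg_shift (X := (T δ).2 l') (Lg_mono ?_ hl') (hTq l' (l' + 1) (by omega))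
    rintro x ⟨⟨_, hx⟩, hx'⟩
    exact ⟨hx', hx⟩

theorem top_ext (hT : IsTower T) (hB : ∀ ξ, B ξ ∈ VV T) (h : LL T B k n t c) (γ₀ : Ω) :
    ∃ γ, γ₀ ≤ γ ∧ ∃ (c' : ℕ → Set ℕ) (P : Set ℕ), Ref T n t c' c ∧ Lg T γ P ∧
      (∀ c'' P', Ref T n t c'' c' → P' ⊆ P → Lg T γ P' → ¬ (DD T B k n t c'' γ P').Countable) ∧
      LL T B k (n + 1) (Function.update t n γ) (Function.update c' n P) := by
  by_contra hcon
  obtain ⟨c₀, hc₀, hc₀L, hc₀s⟩ := exists_pointed h.1
  have href : Ref T n t c₀ c := Ref.of_subset hc₀L hc₀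
  refine b2_pointed hT (LL_mono h href) hc₀s (γ₀ := γ₀) ?_
  intro γ hγ c' P hc' hP hA hLL
  exact hcon ⟨γ, hγ, c', P, hc'.trans href, hP, hA, hLL⟩

end Pool.Agent.Helper46.Tuk
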