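import Pool.Agent.Helper46.Tuk.Def

/-!
# Basic facts about the ultrafilter of a tower
-/

namespace Pool.Agent.Helper46.Tuk

open Set Filter

variable {Ω : Type} [LinearOrder Ω] [OrderBot Ω] [IsOm1 Ω] {T : Ω → Lev Ω}

theorem exists_gt' (a : Ω) : ∃ b, a < b := by
  obtain ⟨b, hb⟩ := exists_gt_of_countable {a} (Set.countable_singleton a)
  exact ⟨b, hb a rfl⟩

theorem exists_ne_bot : ∃ b : Ω, b ≠ ⊥ := by
  obtain ⟨b, hb⟩ := exists_gt' (⊥ : Ω)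
  exact ⟨b, hb.ne'⟩

theorem Lg_univ (hT : WfT T) (δ : Ω) : Lg T δ Set.univ :=
  Lg_univ' fun γ _ h => hT γ h

/-- a member of `VV` is `γ`-cosmall for all large `γ` -/
theorem exists_theta (hT : WfT T) {B : Set ℕ} (hB : B ∈ VV T) :
    ∃ θ : Ω, ∀ γ, θ ≤ γ → ¬ Lg T γ Bᶜ := by
  obtain ⟨δ, hδ⟩ := hB
  exact ⟨δ, fun γ hγ h => hδ (Lg_of_le hT hγ h)⟩

theorem VV_mono {B C : Set ℕ} (hB : B ∈ VV T) (h : B ⊆ C) : C ∈ VV T := by
  obtain ⟨δ, hδ⟩ := hB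
  exact ⟨δ, fun h' => hδ (Lg_mono (compl_subset_compl.2 h) h')⟩

theorem VV_inter (hT : WfT T) {B C : Set ℕ} (hB : B ∈ VV T) (hC : C ∈ VV T) :
    B ∩ C ∈ VV T := by
  obtain ⟨θ, hθ⟩ := exists_theta hT hB
  obtain ⟨θ', hθ'⟩ := exists_theta hT hC
  refine ⟨max θ θ', fun h => ?_⟩
  rw [compl_inter] at h
  rcases Lg_union h with h | h
  · exact hθ _ (le_max_left _ _) h
  · exact hθ' _ (le_max_right _ _) h

theorem univ_mem_VV : Set.univ ∈ VV T := ⟨⊥, by rw [compl_univ]; exact not_Lg_empty T ⊥⟩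

theorem empty_notMem_VV (hT : WfT T) : ∅ ∉ VV T := by
  rintro ⟨δ, hδ⟩
  rw [compl_empty] at hδ
  exact hδ (Lg_univ hT δ)

theorem compl_notMem (hT : WfT T) {B : Set ℕ} (hB : B ∈ VV T) : Bᶜ ∉ VV T := by
  intro h
  have := VV_inter hT hB h
  rw [inter_compl_self] at this
  exact empty_notMem_VV hT this

/-- members of `VV` are large of every type -/
theorem Lg_of_mem (hT : WfT T) {B : Set ℕ} (hB : B ∈ VV T) (δ : Ω) : Lg T δ B := by
  by_contra h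
  have h1 : Bᶜ ∈ VV T := ⟨δ, by rwa [compl_compl]⟩
  exact compl_notMem hT hB h1

/-- the union of the sets of a level is in `VV` -/
theorem iUnion_mem_VV (hT : WfT T) {δ : Ω} (hδ : δ ≠ ⊥) : (⋃ i, (T δ).2 i) ∈ VV T := by
  refine ⟨δ, fun h => ?_⟩
  rw [Lg_iff hT hδ] at h
  obtain ⟨i, hi⟩ := h.nonempty
  have : (⋃ i, (T δ).2 i)ᶜ ∩ (T δ).2 i = ∅ := by
    ext x
    simp only [mem_inter_iff, mem_compl_iff, mem_iUnion, not_exists, mem_empty_iff_false,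
      iff_false, not_and]
    exact fun h => h i
  rw [mem_ofPred_eq, this] at hi
  exact not_Lg_empty T _ hi

theorem xx_mem_VV (hT : WfT T) {ξ : Ω} (hξ : ξ ≠ ⊥) (k : ℕ) : xx T ξ k ∈ VV T := by
  refine ⟨ξ, fun h => ?_⟩
  rw [Lg_iff hT hξ] at h
  obtain ⟨i, hi, hik⟩ := h.exists_gt k
  have : (xx T ξ k)ᶜ ∩ (T ξ).2 i = ∅ := by
    ext x
    simp only [xx, mem_inter_iff, mem_compl_iff, mem_iUnion, not_exists, mem_empty_iff_false,
      iff_false, not_and, exists_prop]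
    exact fun h => h i hik.le
  rw [mem_ofPred_eq, this] at hi
  exact not_Lg_empty T _ hi

omit [LinearOrder Ω] [OrderBot Ω] [IsOm1 Ω] in
theorem xx_anti (T : Ω → Lev Ω) (ξ : Ω) {k l : ℕ} (h : k ≤ l) : xx T ξ l ⊆ xx T ξ k := by
  intro x hx
  simp only [xx, mem_iUnion, exists_prop] at hx ⊢
  obtain ⟨i, h1, h2⟩ := hx
  exact ⟨i, h.trans h1, h2⟩

theorem VV_em (hT : IsTower T) (X : Set ℕ) : X ∈ VV T ∨ Xᶜ ∈ VV T := by
  obtain ⟨δ, hδ, h | h⟩ := hT.decide X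
  · left
    exact VV_mono (iUnion_mem_VV hT.wf hδ) (iUnion_subset h)
  · right
    refine VV_mono (iUnion_mem_VV hT.wf hδ) (iUnion_subset fun i => ?_)
    exact subset_compl_iff_disjoint_right.2 (h i)

theorem compl_mem_of_notMem (hT : IsTower T) {X : Set ℕ} (h : X ∉ VV T) : Xᶜ ∈ VV T :=
  (VV_em hT X).resolve_left h

theorem union_notMem (hT : IsTower T) {X Y : Set ℕ} (hX : X ∉ VV T) (hY : Y ∉ VV T) :
    X ∪ Y ∉ VV T := by
  intro h
  have h1 := VV_inter hT.wf (compl_mem_of_notMem hT hX) (compl_mem_of_notMem hT hY)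
  rw [← compl_union] at h1
  exact compl_notMem hT.wf h h1

/-- the ultrafilter of a tower -/
theorem exists_ultrafilter (hT : IsTower T) : ∃ U : Ultrafilter ℕ, ∀ B, B ∈ U ↔ B ∈ VV T := by
  let F : Filter ℕ :=
    { sets := VV T
      univ_sets := univ_mem_VV
      sets_of_superset := fun h h' => VV_mono h h'
      inter_sets := fun h h' => VV_inter hT.wf h h' }
  have hF : ∀ B, B ∈ F ↔ B ∈ VV T := fun B => Iff.rfl
  refine ⟨Ultrafilter.ofComplNotMemIff F fun B => ?_, fun B => hF B⟩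
  rw [hF, hF]
  constructor
  · intro h
    have := compl_mem_of_notMem hT h
    rwa [compl_compl] at this
  · intro h
    exact compl_notMem hT.wf h

/-- If a level has infinitely many disjoint sets, a large set splits into two large disjoint
subsets; local version. -/
theorem exists_split' {δ : Ω} (hδ : δ ≠ ⊥) (hT : ∀ γ ≤ δ, γ ≠ ⊥ → Valid T γ (T γ).1 (T γ).2)
    {P : Set ℕ} (hP : Lg T δ P) :
    ∃ P₁ P₂, P₁ ∪ P₂ ⊆ P ∧ Disjoint P₁ P₂ ∧ Lg T δ P₁ ∧ Lg T δ P₂ := by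
  have hV := hT δ le_rfl hδ
  rw [Lg_ne_bot T hδ] at hP
  set I := {i | (T δ).1 i < δ ∧ Lg T ((T δ).1 i) (P ∩ (T δ).2 i)} with hI
  let f := Nat.nth (· ∈ I)
  have hf : ∀ n, f n ∈ I := fun n => Nat.nth_mem_of_infinite hP n
  have hfi : Function.Injective f := Nat.nth_injective hP
  have key : ∀ g : ℕ → ℕ, Function.Injective g →
      Lg T δ (⋃ n, P ∩ (T δ).2 (f (g n))) := by
    intro g hg
    rw [Lg_ne_bot T hδ]
    refine (Set.infinite_range_of_injective (hfi.comp hg)).mono ?_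
    rintro _ ⟨n, rfl⟩
    refine ⟨(hf (g n)).1, Lg_mono ?_ (hf (g n)).2⟩
    intro x hx
    exact ⟨mem_iUnion.2 ⟨n, hx⟩, hx.2⟩
  refine ⟨_, _, ?_, ?_, key (fun n => 2 * n) (fun a b h => by simpa using h),
    key (fun n => 2 * n + 1) (fun a b h => by simpa using h)⟩
  · refine union_subset ?_ ?_ <;> exact iUnion_subset fun n => inter_subset_left
  · rw [Set.disjoint_left]
    intro x hx hx'
    obtain ⟨n, hn⟩ := mem_iUnion.1 hx
    obtain ⟨m, hm⟩ := mem_iUnion.1 hx'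
    have hne : f (2 * n) ≠ f (2 * m + 1) := fun h => by
      have := hfi h; omega
    exact Set.disjoint_left.1 (hV.disj hne) hn.2 hm.2

/-- a large set has a large subset not in `VV` -/
theorem exists_split (hT : IsTower T) {δ : Ω} (hδ : δ ≠ ⊥) {P : Set ℕ} (hP : Lg T δ P) :
    ∃ P' ⊆ P, Lg T δ P' ∧ P' ∉ VV T := by
  obtain ⟨P₁, P₂, h1, h2, h3, h4⟩ := exists_split' hδ (fun γ _ h => hT.wf γ h) hP
  by_cases h : P₁ ∈ VV T
  · refine ⟨P₂, (subset_union_right).trans h1, h4, fun h' => ?_⟩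
    have := VV_inter hT.wf h h'
    rw [h2.inter_eq] at this
    exact empty_notMem_VV hT.wf this
  · exact ⟨P₁, (subset_union_left).trans h1, h3, h⟩

/-- a set meeting only finitely many sets of the level `δ` is small -/
theorem small_of_subset (hT : WfT T) {δ : Ω} (hδ : δ ≠ ⊥) {X : Set ℕ} {s : Set ℕ}
    (hs : s.Finite) (hX : X ⊆ ⋃ i ∈ s, (T δ).2 i) : ¬ Lg T δ X := by
  intro h
  rw [Lg_iff hT hδ] at h
  obtain ⟨i, hi, his⟩ := h.exists_notMem_finite hs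
  have : X ∩ (T δ).2 i = ∅ := by
    ext x
    simp only [mem_inter_iff, mem_empty_iff_false, iff_false, not_and]
    intro hx hx'
    obtain ⟨j, hj, hxj⟩ := mem_iUnion₂.1 (hX hx)
    have hne : i ≠ j := fun h => his (h ▸ hj)
    exact Set.disjoint_left.1 ((hT δ hδ).disj hne) hx' hxj
  rw [mem_ofPred_eq, this] at hi
  exact not_Lg_empty T _ hi

/-- large sets of type `≠ ⊥` are infinite -/
theorem infinite_of_Lg (hT : WfT T) {δ : Ω} (hδ : δ ≠ ⊥) {X : Set ℕ} (h : Lg T δ X) :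
    X.Infinite := by
  intro hX
  refine small_of_subset hT hδ (X := X ∩ ⋃ i, (T δ).2 i)
    (s := {i | (X ∩ (T δ).2 i).Nonempty}) ?_ ?_ ?_
  · classical
    -- the map sending a point of `X` to the index of its set
    let g : ℕ → ℕ := fun x => if h : ∃ i, x ∈ (T δ).2 i then h.choose else 0
    refine (hX.image g).subset ?_
    rintro i ⟨x, hx, hxi⟩
    refine ⟨x, hx, ?_⟩
    have h1 : ∃ i, x ∈ (T δ).2 i := ⟨i, hxi⟩
    have h2 : g x = h1.choose := dif_pos h1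
    rw [h2]
    by_contra hne
    exact Set.disjoint_left.1 ((hT δ hδ).disj hne) h1.choose_spec hxi
  · rintro x ⟨hx, hx'⟩
    obtain ⟨i, hi⟩ := mem_iUnion.1 hx'
    exact mem_iUnion₂.2 ⟨i, ⟨x, hx, hi⟩, hi⟩
  · rw [Lg_iff hT hδ] at h ⊢
    refine h.mono fun i hi => Lg_mono ?_ hi
    rintro x ⟨hx, hxi⟩
    exact ⟨⟨hx, mem_iUnion.2 ⟨i, hxi⟩⟩, hxi⟩

/-! ## Configurations -/

/-- `c'` refines `c` (mod small sets), as configurations with `n` pieces of types `t`. -/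
structure Ref (T : Ω → Lev Ω) (n : ℕ) (t : ℕ → Ω) (c' c : ℕ → Set ℕ) : Prop where
  lg : ∀ j < n, Lg T (t j) (c' j)
  sm : ∀ j < n, ¬ Lg T (t j) (c' j \ c j)

theorem Ref.refl {n : ℕ} {t : ℕ → Ω} {c : ℕ → Set ℕ} (h : ∀ j < n, Lg T (t j) (c j)) :
    Ref T n t c c :=
  ⟨h, fun j _ => by rw [sdiff_self]; exact not_Lg_empty T _⟩

theorem Ref.trans {n : ℕ} {t : ℕ → Ω} {c c' c'' : ℕ → Set ℕ} (h : Ref T n t c'' c')
    (h' : Ref T n t c' c) : Ref T n t c'' c :=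
  ⟨h.lg, fun j hj => small_diff_trans (h.sm j hj) (h'.sm j hj)⟩

theorem Ref.of_subset {n : ℕ} {t : ℕ → Ω} {c c' : ℕ → Set ℕ} (h : ∀ j < n, Lg T (t j) (c' j))
    (h' : ∀ j < n, c' j ⊆ c j) : Ref T n t c' c :=
  ⟨h, fun j hj => by rw [sdiff_eq_empty.2 (h' j hj)]; exact not_Lg_empty T _⟩

/-- intersecting a refinement with the refined configuration -/
theorem Ref.inter {n : ℕ} {t : ℕ → Ω} {c c' : ℕ → Set ℕ} (h : Ref T n t c' c) :
    ∀ j < n, Lg T (t j) (c' j ∩ c j) := fun j hj => Lg_inter_of_diff (h.lg j hj) (h.sm j hj)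

/-- the exceptional indices of a configuration with a marked piece `P` of type `γ` -/
def DD (T : Ω → Lev Ω) (B : Ω → Set ℕ) (k n : ℕ) (t : ℕ → Ω) (c : ℕ → Set ℕ) (γ : Ω)
    (P : Set ℕ) : Set Ω :=
  {ξ | (∀ j < n, Lg T (t j) (c j ∩ B ξ)) ∧ Lg T γ (P ∩ (B ξ \ xx T ξ k))}

theorem DD_mono {B : Ω → Set ℕ} {k n : ℕ} {t : ℕ → Ω} {c c' : ℕ → Set ℕ} {γ : Ω}
    {P P' : Set ℕ} (h : ∀ j < n, ¬ Lg T (t j) (c' j \ c j)) (h' : ¬ Lg T γ (P' \ P)) :
    DD T B k n t c' γ P' ⊆ DD T B k n t c γ P := by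
  rintro ξ ⟨h1, h2⟩
  exact ⟨fun j hj => Lg_shift (h1 j hj) (h j hj), Lg_shift h2 h'⟩

/-- all refinements of `c` can be killed at all levels `≥ γ₁` -/
def KK (T : Ω → Lev Ω) (B : Ω → Set ℕ) (k n : ℕ) (t : ℕ → Ω) (c : ℕ → Set ℕ) (γ₁ : Ω) : Prop :=
  ∀ γ, γ₁ ≤ γ → ∀ c', Ref T n t c' c → ∀ P, Lg T γ P →
    ∃ c'' P', Ref T n t c'' c' ∧ P' ⊆ P ∧ Lg T γ P' ∧ (DD T B k n t c'' γ P').Countable

/-- live configurations -/
def LL (T : Ω → Lev Ω) (B : Ω → Set ℕ) (k n : ℕ) (t : ℕ → Ω) (c : ℕ → Set ℕ) : Prop :=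
  (∀ j < n, Lg T (t j) (c j)) ∧ ∀ c' γ₁, Ref T n t c' c → ¬ KK T B k n t c' γ₁

theorem KK_mono {B : Ω → Set ℕ} {k n : ℕ} {t : ℕ → Ω} {c c' : ℕ → Set ℕ} {γ₁ γ₂ : Ω}
    (h : KK T B k n t c γ₁) (hc : Ref T n t c' c) (hγ : γ₁ ≤ γ₂) : KK T B k n t c' γ₂ :=
  fun γ hγ' _ h' P hP => h γ (hγ.trans hγ') _ (h'.trans hc) P hP

theorem LL_mono {B : Ω → Set ℕ} {k n : ℕ} {t : ℕ → Ω} {c c' : ℕ → Set ℕ}
    (h : LL T B k n t c) (hc : Ref T n t c' c) : LL T B k n t c' :=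
  ⟨hc.lg, fun c'' γ₁ h' => h.2 c'' γ₁ (h'.trans hc)⟩

end Pool.Agent.Helper46.Tuk
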