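import Mathlib

/-!
# The tower of iterated Fubini-type coideals on `ℕ` (for `MP_a58811_lc`)

`Ω` is a well-order of type `ω₁` (abstractly: uncountable, all proper initial segments countable).
A *level* is a sequence of types and a sequence of subsets of `ℕ`; a tower assigns a level to each
`δ : Ω`.  `Lg T δ X` says that `X` is `δ`-large.
-/

namespace Pool.Agent.Helper46.Tuk

open Set Filter

/-- An abstract copy of `ω₁`. -/
class IsOm1 (Ω : Type) [LinearOrder Ω] [OrderBot Ω] : Prop where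
  wf : WellFoundedLT Ω
  ctbl : ∀ a : Ω, (Set.Iio a).Countable
  unctbl : ¬ (Set.univ : Set Ω).Countable

/-- A level: types `L.1 i` and sets `L.2 i`. -/
abbrev Lev (Ω : Type) := (ℕ → Ω) × (ℕ → Set ℕ)

variable {Ω : Type} [LinearOrder Ω] [OrderBot Ω] [IsOm1 Ω]

instance (priority := 100) : WellFoundedLT Ω := IsOm1.wf

/-- Countable subsets of `Ω` are bounded. -/
theorem exists_gt_of_countable (s : Set Ω) (hs : s.Countable) : ∃ a, ∀ x ∈ s, x < a := by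
  by_contra hcon
  push Not at hcon
  apply IsOm1.unctbl (Ω := Ω)
  have : (Set.univ : Set Ω) ⊆ ⋃ x ∈ s, Set.Iic x := by
    intro a _
    obtain ⟨x, hx, hax⟩ := hcon a
    exact Set.mem_biUnion hx hax
  refine Set.Countable.mono this (hs.biUnion fun x _ => ?_)
  have : Set.Iic x = insert x (Set.Iio x) := by
    ext y; simp [le_iff_eq_or_lt]
  rw [this]
  exact (IsOm1.ctbl x).insert x

/-- A sequence in `Ω` is bounded. -/
theorem exists_gt_seq (f : ℕ → Ω) : ∃ a, ∀ n, f n < a := by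
  obtain ⟨a, ha⟩ := exists_gt_of_countable (Set.range f) (Set.countable_range f)
  exact ⟨a, fun n => ha _ ⟨n, rfl⟩⟩

/-- `X` is `δ`-large for the tower `T`. -/
noncomputable def Lg (T : Ω → Lev Ω) : Ω → Set ℕ → Prop :=
  WellFounded.fix (wellFounded_lt (α := Ω)) (fun δ ih X =>
    (δ = ⊥ ∧ X.Nonempty) ∨
      (δ ≠ ⊥ ∧ {i | ∃ h : (T δ).1 i < δ, ih ((T δ).1 i) h (X ∩ (T δ).2 i)}.Infinite))

theorem Lg_def (T : Ω → Lev Ω) (δ : Ω) (X : Set ℕ) : Lg T δ X ↔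
    (δ = ⊥ ∧ X.Nonempty) ∨
      (δ ≠ ⊥ ∧ {i | (T δ).1 i < δ ∧ Lg T ((T δ).1 i) (X ∩ (T δ).2 i)}.Infinite) := by
  unfold Lg
  rw [WellFounded.fix_eq]
  simp only [exists_prop]

theorem Lg_bot (T : Ω → Lev Ω) (X : Set ℕ) : Lg T ⊥ X ↔ X.Nonempty := by
  rw [Lg_def]; simp

theorem Lg_ne_bot (T : Ω → Lev Ω) {δ : Ω} (hδ : δ ≠ ⊥) (X : Set ℕ) : Lg T δ X ↔
    {i | (T δ).1 i < δ ∧ Lg T ((T δ).1 i) (X ∩ (T δ).2 i)}.Infinite := by
  rw [Lg_def]; simp [hδ]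

/-- `Lg T δ` only depends on the levels `≤ δ`. -/
theorem Lg_congr {T T' : Ω → Lev Ω} {δ : Ω} (h : ∀ γ ≤ δ, T γ = T' γ) (X : Set ℕ) :
    Lg T δ X ↔ Lg T' δ X := by
  induction δ using WellFoundedLT.induction generalizing X with
  | ind δ ih =>
    rw [Lg_def, Lg_def T', h δ le_rfl]
    have : {i | (T' δ).1 i < δ ∧ Lg T ((T' δ).1 i) (X ∩ (T' δ).2 i)} =
        {i | (T' δ).1 i < δ ∧ Lg T' ((T' δ).1 i) (X ∩ (T' δ).2 i)} := by
      ext i
      simp only [mem_ofPred_eq, and_congr_right_iff]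
      intro hi
      exact ih _ hi (fun γ hγ => h γ (hγ.trans hi.le)) _
    rw [this]

theorem Lg_mono {T : Ω → Lev Ω} {δ : Ω} {X Y : Set ℕ} (hXY : X ⊆ Y) (h : Lg T δ X) :
    Lg T δ Y := by
  induction δ using WellFoundedLT.induction generalizing X Y with
  | ind δ ih =>
    rw [Lg_def] at h ⊢
    rcases h with ⟨h1, h2⟩ | ⟨h1, h2⟩
    · exact Or.inl ⟨h1, h2.mono hXY⟩
    · refine Or.inr ⟨h1, h2.mono ?_⟩
      rintro i ⟨h3, h4⟩
      exact ⟨h3, ih _ h3 (inter_subset_inter_left _ hXY) h4⟩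

theorem not_Lg_empty (T : Ω → Lev Ω) (δ : Ω) : ¬ Lg T δ ∅ := by
  induction δ using WellFoundedLT.induction with
  | ind δ ih =>
    rw [Lg_def]
    rintro (⟨_, h2⟩ | ⟨h1, h2⟩)
    · exact Set.not_nonempty_empty h2
    · obtain ⟨i, h3, h4⟩ := h2.nonempty
      rw [empty_inter] at h4
      exact ih _ h3 h4

theorem Lg_union {T : Ω → Lev Ω} {δ : Ω} {X Y : Set ℕ} (h : Lg T δ (X ∪ Y)) :
    Lg T δ X ∨ Lg T δ Y := by
  induction δ using WellFoundedLT.induction generalizing X Y with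
  | ind δ ih =>
    rw [Lg_def] at h
    rcases h with ⟨h1, h2⟩ | ⟨h1, h2⟩
    · rcases Set.union_nonempty.1 h2 with h | h
      · left; rw [Lg_def]; exact Or.inl ⟨h1, h⟩
      · right; rw [Lg_def]; exact Or.inl ⟨h1, h⟩
    · have : {i | (T δ).1 i < δ ∧ Lg T ((T δ).1 i) ((X ∪ Y) ∩ (T δ).2 i)} ⊆
        {i | (T δ).1 i < δ ∧ Lg T ((T δ).1 i) (X ∩ (T δ).2 i)} ∪
        {i | (T δ).1 i < δ ∧ Lg T ((T δ).1 i) (Y ∩ (T δ).2 i)} := by
        rintro i ⟨h3, h4⟩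
        rw [union_inter_distrib_right] at h4
        rcases ih _ h3 h4 with h | h
        · exact Or.inl ⟨h3, h⟩
        · exact Or.inr ⟨h3, h⟩
      rcases Set.infinite_union.1 (h2.mono this) with h | h
      · left; rw [Lg_def]; exact Or.inr ⟨h1, h⟩
      · right; rw [Lg_def]; exact Or.inr ⟨h1, h⟩

/-- If `X` is large and `X \ Y` is small then `X ∩ Y` is large. -/
theorem Lg_inter_of_diff {T : Ω → Lev Ω} {δ : Ω} {X Y : Set ℕ} (h : Lg T δ X)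
    (h' : ¬ Lg T δ (X \ Y)) : Lg T δ (X ∩ Y) := by
  rw [← inter_union_sdiff X Y] at h
  exact (Lg_union h).resolve_right h'

/-- If `X ∩ B` is large and `X \ Y` is small then `Y ∩ B` is large. -/
theorem Lg_shift {T : Ω → Lev Ω} {δ : Ω} {X Y B : Set ℕ} (h : Lg T δ (X ∩ B))
    (h' : ¬ Lg T δ (X \ Y)) : Lg T δ (Y ∩ B) := by
  have h1 : Lg T δ ((Y ∩ B) ∪ (X \ Y)) := by
    refine Lg_mono ?_ h
    rintro x ⟨h1, h2⟩
    by_cases h3 : x ∈ Y
    · exact Or.inl ⟨h3, h2⟩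
    · exact Or.inr ⟨h1, h3⟩
  exact (Lg_union h1).resolve_right h'

/-- Smallness of a difference is transitive. -/
theorem small_diff_trans {T : Ω → Lev Ω} {δ : Ω} {X Y Z : Set ℕ} (h : ¬ Lg T δ (X \ Y))
    (h' : ¬ Lg T δ (Y \ Z)) : ¬ Lg T δ (X \ Z) := by
  intro h1
  have h2 : Lg T δ ((X \ Y) ∪ (Y \ Z)) := by
    refine Lg_mono ?_ h1
    rintro x ⟨h1, h2⟩
    by_cases h3 : x ∈ Y
    · exact Or.inr ⟨h3, h2⟩
    · exact Or.inl ⟨h1, h3⟩
  rcases Lg_union h2 with h | h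
  · exact absurd h ‹_›
  · exact absurd h ‹_›

/-- Validity of a level `(t, Q)` at `δ`. -/
structure Valid (T : Ω → Lev Ω) (δ : Ω) (t : ℕ → Ω) (Q : ℕ → Set ℕ) : Prop where
  lt : ∀ i, t i < δ
  cof : ∀ γ < δ, ∀ᶠ i in atTop, γ ≤ t i
  disj : Pairwise (Function.onFun Disjoint Q)
  lg : {i | Lg T (t i) (Q i)}.Infinite

/-- The levels of the tower other than the bottom one are valid. -/
def WfT (T : Ω → Lev Ω) : Prop := ∀ δ, δ ≠ ⊥ → Valid T δ (T δ).1 (T δ).2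

/-- Largeness for a larger type implies largeness for a smaller type. -/
theorem Lg_of_le' {T : Ω → Lev Ω} {δ : Ω}
    (hT : ∀ γ ≤ δ, γ ≠ ⊥ → Valid T γ (T γ).1 (T γ).2) {γ : Ω} (hγ : γ ≤ δ) {X : Set ℕ}
    (h : Lg T δ X) : Lg T γ X := by
  induction δ using WellFoundedLT.induction generalizing X γ with
  | ind δ ih =>
    rcases hγ.eq_or_lt with rfl | hlt
    · exact h
    · have hδ : δ ≠ ⊥ := (bot_le.trans_lt hlt).ne'
      rw [Lg_ne_bot T hδ] at h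
      obtain ⟨N, hN⟩ := Filter.eventually_atTop.1 ((hT δ le_rfl hδ).cof γ hlt)
      obtain ⟨i, ⟨hi1, hi2⟩, hi3⟩ := h.exists_gt N
      exact Lg_mono inter_subset_left
        (ih _ hi1 (fun γ' h' => hT γ' (h'.trans hi1.le)) (hN i hi3.le) hi2)

theorem Lg_of_le {T : Ω → Lev Ω} (hT : WfT T) {γ δ : Ω} (hγ : γ ≤ δ) {X : Set ℕ}
    (h : Lg T δ X) : Lg T γ X :=
  Lg_of_le' (fun γ' _ h' => hT γ' h') hγ h

theorem Lg_iff {T : Ω → Lev Ω} (hT : WfT T) {δ : Ω} (hδ : δ ≠ ⊥) (X : Set ℕ) : Lg T δ X ↔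
    {i | Lg T ((T δ).1 i) (X ∩ (T δ).2 i)}.Infinite := by
  rw [Lg_ne_bot T hδ]
  have : {i | (T δ).1 i < δ ∧ Lg T ((T δ).1 i) (X ∩ (T δ).2 i)} =
      {i | Lg T ((T δ).1 i) (X ∩ (T δ).2 i)} := by
    ext i; simp [(hT δ hδ).lt i]
  rw [this]

theorem Lg_univ' {T : Ω → Lev Ω} {δ : Ω}
    (hT : ∀ γ ≤ δ, γ ≠ ⊥ → Valid T γ (T γ).1 (T γ).2) : Lg T δ Set.univ := by
  by_cases hδ : δ = ⊥
  · subst hδ
    rw [Lg_bot]; exact ⟨0, trivial⟩
  · rw [Lg_ne_bot T hδ]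
    refine (hT δ le_rfl hδ).lg.mono fun i hi => ⟨(hT δ le_rfl hδ).lt i, ?_⟩
    rw [univ_inter]; exact hi

/-- The ultrafilter (as a family of sets) generated by the tower. -/
def VV (T : Ω → Lev Ω) : Set (Set ℕ) := {B | ∃ δ, ¬ Lg T δ Bᶜ}

/-- The pieces of the next level of `T` at `ξ` from `k` on. -/
def xx (T : Ω → Lev Ω) (ξ : Ω) (k : ℕ) : Set ℕ := ⋃ i, ⋃ (_ : k ≤ i), (T ξ).2 i

/-- The output type of the systems in `IsTower.run`: `(Z, W, t)`. -/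
abbrev Out (Ω : Type) := (ℕ → Set ℕ) × (ℕ → Set ℕ) × Ω

/-- `Q` is an admissible sequence of sets for the level `δ`, given the outputs `o 0, o 1, …`. -/
structure Adm (T : Ω → Lev Ω) (δ : Ω) (o : ℕ → Out Ω) (Q : ℕ → Set ℕ) : Prop where
  valid : Valid T δ (fun i => (o (i + 1)).2.2) Q
  sub : ∀ n i, Q i ⊆ (o n).1 i
  small : ∀ n i, ¬ Lg T (o (i + 1)).2.2 (Q i \ (o n).2.1 i)

/-- `T` is a good tower. -/
structure IsTower (T : Ω → Lev Ω) : Prop where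
  wf : WfT T
  /-- each set of naturals is decided at some level -/
  decide : ∀ X : Set ℕ, ∃ δ, δ ≠ ⊥ ∧ ((∀ i, (T δ).2 i ⊆ X) ∨ ∀ i, Disjoint ((T δ).2 i) X)
  /-- for each system of dependent choices some level `δ` follows a run of the system -/
  run : ∀ (S : Type) (s0 : S) (Step : S → Ω → S → Prop) (_ : ∀ s e, ∃ s', Step s e s')
    (out : S → Out Ω) (β : S → Ω), ∃ δ, δ ≠ ⊥ ∧ ∃ (e : ℕ → Ω) (r : ℕ → S),
      (∀ γ < δ, ∃ n, e n = γ) ∧ r 0 = s0 ∧ (∀ n, Step (r n) (e n) (r (n + 1))) ∧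
      (∀ n, β (r n) < δ) ∧
      ((∃ Q, Adm T δ (fun n => out (r n)) Q) →
        (T δ).1 = (fun i => (out (r (i + 1))).2.2) ∧ Adm T δ (fun n => out (r n)) (T δ).2)

end Pool.Agent.Helper46.Tuk
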