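import Pool.Agent.Helper46.Tuk.Run

/-!
# The usual diamond gives diamond on an abstract copy of `ω₁` (module TUK-DIAMOND)
-/

namespace Pool.Agent.Helper46.Tuk

open Set Filter

/-- Jensen's diamond principle: there are `A α ⊆ α` (`α < ω₁`) such that for every `X ⊆ ω₁` the set
of `α < ω₁` with `X ∩ α = A α` is stationary, i.e. meets every closed unbounded `C ⊆ ω₁`. -/
def Diamond : Prop :=
  ∃ A : Ordinal.{0} → Set Ordinal.{0}, (∀ α, A α ⊆ Set.Iio α) ∧
    ∀ X C : Set Ordinal.{0},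
      X ⊆ Set.Iio (Ordinal.omega 1) → C ⊆ Set.Iio (Ordinal.omega 1) →
      (∀ α < Ordinal.omega 1, ∃ γ ∈ C, α < γ) →
      (∀ δ < Ordinal.omega 1, δ ≠ 0 → (∀ α < δ, ∃ γ ∈ C, α < γ ∧ γ < δ) → δ ∈ C) →
      ∃ δ ∈ C, X ∩ Set.Iio δ = A δ

theorem exists_model (h : Diamond) : ∃ (Ω : Type) (_ : LinearOrder Ω) (_ : OrderBot Ω)
    (_ : IsOm1 Ω), DiamondΩ Ω := by
  classical
  have ho : (Cardinal.aleph 1).ord = Ordinal.omega 1 := Cardinal.ord_aleph 1
  have hne : (Cardinal.aleph 1).ord ≠ 0 := by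
    rw [ho]; exact (Ordinal.omega_pos 1).ne'
  let φ : Set.Iio (Cardinal.aleph 1).ord ≃o (Cardinal.aleph 1).ord.ToType := Ordinal.ToType.mk
  let v : (Cardinal.aleph 1).ord.ToType → Ordinal.{0} := fun a => (φ.symm a : Ordinal.{0})
  have hv : ∀ a, v a < Ordinal.omega 1 := fun a => by
    have h1 : v a < (Cardinal.aleph 1).ord := (φ.symm a).2
    rwa [ho] at h1
  have hvlt : ∀ a b, v a < v b ↔ a < b := by
    intro a b
    change (φ.symm a : Ordinal.{0}) < (φ.symm b : Ordinal.{0}) ↔ a < b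
    rw [Subtype.coe_lt_coe]
    exact φ.symm.lt_iff_lt
  have hvs : ∀ o : Ordinal.{0}, o < Ordinal.omega 1 → ∃ a, v a = o := by
    intro o hlt
    rw [← ho] at hlt
    refine ⟨φ ⟨o, hlt⟩, ?_⟩
    change (φ.symm (φ ⟨o, hlt⟩) : Ordinal.{0}) = o
    rw [OrderIso.symm_apply_apply]
  have hvinj : Function.Injective v := by
    intro a b hab
    apply φ.symm.injective
    exact Subtype.ext hab
  haveI : Nonempty (Cardinal.aleph 1).ord.ToType := Ordinal.nonempty_toType_iff.2 hne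
  letI : OrderBot (Cardinal.aleph 1).ord.ToType :=
    WellFoundedLT.toOrderBot (Cardinal.aleph 1).ord.ToType
  haveI hom : IsOm1 (Cardinal.aleph 1).ord.ToType :=
    { wf := inferInstance
      ctbl := by
        intro a
        have h1 : Cardinal.mk (Set.Iio a) < Cardinal.mk (Cardinal.aleph 1).ord.ToType :=
          Cardinal.mk_Iio_lt a (by rw [Cardinal.mk_ord_toType, Ordinal.type_toType])
        have h2 : Cardinal.mk (Set.Iio a) ≤ Cardinal.aleph0 := by
          have h3 : Cardinal.mk (Cardinal.aleph 1).ord.ToType = Order.succ Cardinal.aleph0 := by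
            rw [Cardinal.mk_ord_toType, Cardinal.succ_aleph0]
          rw [h3] at h1
          exact Order.lt_succ_iff.mp h1
        exact Set.countable_coe_iff.mp (Cardinal.mk_le_aleph0_iff.mp h2)
      unctbl := by
        intro hc
        have h1 : Cardinal.mk (Cardinal.aleph 1).ord.ToType ≤ Cardinal.aleph0 := by
          rw [← Cardinal.mk_univ]
          exact hc.le_aleph0
        rw [Cardinal.mk_ord_toType] at h1
        have h2 : Cardinal.aleph0 < Cardinal.aleph 1 := by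
          rw [← Cardinal.aleph_zero]
          exact Cardinal.aleph_lt_aleph.2 zero_lt_one
        exact absurd h1 (not_le.2 h2) }
  refine ⟨(Cardinal.aleph 1).ord.ToType, inferInstance, inferInstance, hom, ?_⟩
  obtain ⟨A, -, hA⟩ := h
  refine ⟨fun a => {x | v x ∈ A (v a)}, ?_⟩
  intro X C hC
  obtain ⟨δ, hδ, hXA⟩ := hA (v '' X) (v '' C)
    (by rintro _ ⟨a, _, rfl⟩; exact hv a)
    (by rintro _ ⟨a, _, rfl⟩; exact hv a)
    (by
      intro α hα
      obtain ⟨a, rfl⟩ := hvs α hα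
      obtain ⟨c, hc, hac⟩ := hC.1 a
      exact ⟨v c, ⟨c, hc, rfl⟩, (hvlt _ _).2 hac⟩)
    (by
      intro δ hδ hδ0 hlim
      obtain ⟨d, rfl⟩ := hvs δ hδ
      refine ⟨d, hC.2 d ?_ ?_, rfl⟩
      · rintro hd
        obtain ⟨z, hz⟩ := hvs 0 (Ordinal.omega_pos 1)
        have h1 : v z < v d := by
          rw [hz]; exact pos_iff_ne_zero.2 hδ0
        have h2 := (hvlt _ _).1 h1
        rw [hd] at h2
        exact not_lt_bot h2
      · intro a ha
        obtain ⟨γ, ⟨c, hc, rfl⟩, h1, h2⟩ := hlim (v a) ((hvlt _ _).2 ha)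
        exact ⟨c, hc, (hvlt _ _).1 h1, (hvlt _ _).1 h2⟩)
  obtain ⟨c, hc, rfl⟩ := hδ
  refine ⟨c, hc, ?_⟩
  ext x
  simp only [Set.mem_inter_iff, Set.mem_Iio, Set.mem_ofPred_eq]
  constructor
  · rintro ⟨hx, hxc⟩
    refine ⟨?_, hxc⟩
    rw [← hXA]
    exact ⟨⟨x, hx, rfl⟩, (hvlt _ _).2 hxc⟩
  · rintro ⟨hx, hxc⟩
    rw [← hXA] at hx
    obtain ⟨⟨y, hy, hyx⟩, _⟩ := hx
    rw [hvinj hyx] at hy
    exact ⟨hy, hxc⟩

end Pool.Agent.Helper46.Tuk
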