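import Pool.Agent.Helper46.Tuk.Basic

/-!
# The combinatorial core of the diamond construction (module TUK-FINAL)
-/

namespace Pool.Agent.Helper46.Tuk

open Set Filter

variable {Ω : Type} [LinearOrder Ω] [OrderBot Ω] [IsOm1 Ω]

/-- states of the final run -/
structure FiSt (Ω : Type) where
  n : ℕ
  t : ℕ → Ω
  c : ℕ → Set ℕ
  E : ℕ → Set ℕ
  top : ℕ → Prop
  X : Set Ω
  η : Ω

/-- the union of the top pieces -/
def fi_Y (s : FiSt Ω) : Set ℕ := ⋃ j, ⋃ (_ : j < s.n ∧ s.top j), s.E j

/-- invariants of the states of the final run -/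
structure FiInv (T : Ω → Lev Ω) (B : Ω → Set ℕ) (k : ℕ) (s : FiSt Ω) : Prop where
  ll : LL T B k s.n s.t s.c
  cE : ∀ j < s.n, s.c j ⊆ s.E j
  fin : s.X.Finite
  xbot : ∀ ξ ∈ s.X, ξ ≠ ⊥
  cB : ∀ ξ ∈ s.X, ∀ j < s.n, s.c j ⊆ B ξ
  tη : ∀ j < s.n, s.t j ≤ s.η
  pt : ∀ j < s.n, s.t j = ⊥ → (s.E j).Subsingleton
  Y : fi_Y s ∉ VV T
  disj : ∀ i < s.n, ∀ j < s.n, s.top i → s.top j → i ≠ j → Disjoint (s.E i) (s.E j)
  kill : ∀ j < s.n, s.top j → ∃ ξ ∈ s.X, Disjoint (s.E j) (xx T ξ k)

/-- the steps of the final run -/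
structure FiStep (T : Ω → Lev Ω) (s : FiSt Ω) (e : Ω) (s' : FiSt Ω) : Prop where
  n : s'.n = s.n + 1
  t : ∀ j < s.n, s'.t j = s.t j
  E : ∀ j < s.n, s'.E j = s.E j
  top : ∀ j < s.n, (s'.top j ↔ s.top j)
  X : s.X ⊆ s'.X
  η : s.η ≤ s'.η
  e : e ≤ s'.η
  ht : s'.top s.n → s.η ≤ s'.t s.n
  child : ∀ a, (Nat.unpair s.n).1 = a + 1 → s.t a ≠ ⊥ →
    ∃ i, s.n ≤ i ∧ s'.t s.n = (T (s.t a)).1 i ∧ s'.E s.n ⊆ s.E a ∩ (T (s.t a)).2 i
  istop : (Nat.unpair s.n).1 = 0 → s'.top s.n

section Steps

variable {T : Ω → Lev Ω} {B : Ω → Set ℕ} {k : ℕ}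

theorem fi_biInter_mem (hT : WfT T) (hB : ∀ ξ, B ξ ∈ VV T) {X : Set Ω} (hX : X.Finite) :
    (⋂ ξ ∈ X, B ξ) ∈ VV T := by
  induction X, hX using Set.Finite.induction_on with
  | empty => simp [univ_mem_VV]
  | insert _ _ ih =>
    rw [biInter_insert]
    exact VV_inter hT (hB _) ih

/-- child steps exist -/
theorem fi_child (hT : WfT T)
    (hB3 : ∀ {n : ℕ} {t : ℕ → Ω} {c : ℕ → Set ℕ}, LL T B k n t c → ∀ {j : ℕ}, j < n →
      t j ≠ ⊥ → ∀ m : ℕ,
      ∃ i, m ≤ i ∧ ∃ (c' : ℕ → Set ℕ) (Q : Set ℕ), (∀ l < n, c' l ⊆ c l) ∧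
        Q ⊆ c j ∩ (T (t j)).2 i ∧
        LL T B k (n + 1) (Function.update t n ((T (t j)).1 i)) (Function.update c' n Q))
    (s : FiSt Ω) (hs : FiInv T B k s) (e : Ω) {a : ℕ} (ha : a < s.n) (hta : s.t a ≠ ⊥)
    (hau : (Nat.unpair s.n).1 = a + 1) :
    ∃ s', FiInv T B k s' ∧ FiStep T s e s' := by
  obtain ⟨i, hi, c', Q, hc', hQ, hLL⟩ := hB3 hs.ll ha hta s.n
  have hvi : (T (s.t a)).1 i < s.t a := (hT _ hta).lt i
  have hQl : Lg T ((T (s.t a)).1 i) Q := by
    have := hLL.1 s.n (Nat.lt_succ_self _)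
    simpa using this
  -- shrink the new piece to a point if its type is bottom
  obtain ⟨Q', hQ'Q, hQ'l, hQ'pt⟩ : ∃ Q' ⊆ Q, Lg T ((T (s.t a)).1 i) Q' ∧
      ((T (s.t a)).1 i = ⊥ → Q'.Subsingleton) := by
    by_cases hb : (T (s.t a)).1 i = ⊥
    · rw [hb, Lg_bot] at hQl
      obtain ⟨x, hx⟩ := hQl
      refine ⟨{x}, singleton_subset_iff.2 hx, ?_, fun _ => subsingleton_singleton⟩
      rw [hb, Lg_bot]
      exact singleton_nonempty x
    · exact ⟨Q, Subset.rfl, hQl, fun h => absurd h hb⟩
  have hne : ∀ j < s.n, j ≠ s.n := fun j hj => hj.ne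
  refine ⟨⟨s.n + 1, Function.update s.t s.n ((T (s.t a)).1 i), Function.update c' s.n Q',
    Function.update s.E s.n Q', Function.update s.top s.n False, s.X, max s.η e⟩, ?_, ?_⟩
  · refine ⟨?_, ?_, hs.fin, hs.xbot, ?_, ?_, ?_, ?_, ?_, ?_⟩
    · -- LL
      refine LL_mono hLL (Ref.of_subset ?_ ?_)
      · intro j hj
        rcases Nat.lt_succ_iff_lt_or_eq.1 hj with h | rfl
        · simp only [Function.update_of_ne (hne j h)]
          have := hLL.1 j hj
          rw [Function.update_of_ne (hne j h), Function.update_of_ne (hne j h)] at this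
          exact Lg_mono Subset.rfl this
        · simpa using hQ'l
      · intro j hj
        rcases Nat.lt_succ_iff_lt_or_eq.1 hj with h | rfl
        · simp only [Function.update_of_ne (hne j h)]
          exact Subset.rfl
        · simpa using hQ'Q
    · intro j hj
      rcases Nat.lt_succ_iff_lt_or_eq.1 hj with h | rfl
      · simp only [Function.update_of_ne (hne j h)]
        exact (hc' j h).trans (hs.cE j h)
      · simp
    · intro ξ hξ j hj
      rcases Nat.lt_succ_iff_lt_or_eq.1 hj with h | rfl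
      · simp only [Function.update_of_ne (hne j h)]
        exact (hc' j h).trans (hs.cB ξ hξ j h)
      · simp only [Function.update_self]
        exact (hQ'Q.trans hQ).trans (inter_subset_left.trans (hs.cB ξ hξ a ha))
    · intro j hj
      rcases Nat.lt_succ_iff_lt_or_eq.1 hj with h | rfl
      · simp only [Function.update_of_ne (hne j h)]
        exact (hs.tη j h).trans (le_max_left _ _)
      · simp only [Function.update_self]
        exact (hvi.le.trans (hs.tη a ha)).trans (le_max_left _ _)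
    · intro j hj
      rcases Nat.lt_succ_iff_lt_or_eq.1 hj with h | rfl
      · simp only [Function.update_of_ne (hne j h)]
        exact hs.pt j h
      · simp only [Function.update_self]
        exact hQ'pt
    · have : fi_Y (⟨s.n + 1, Function.update s.t s.n ((T (s.t a)).1 i),
          Function.update c' s.n Q',
          Function.update s.E s.n Q', Function.update s.top s.n False, s.X, max s.η e⟩ :
            FiSt Ω) ⊆ fi_Y s := by
        intro x hx
        simp only [fi_Y, mem_iUnion, exists_prop] at hx ⊢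
        obtain ⟨j, ⟨hj, hjt⟩, hxj⟩ := hx
        rcases Nat.lt_succ_iff_lt_or_eq.1 hj with h | rfl
        · rw [Function.update_of_ne (hne j h)] at hjt hxj
          exact ⟨j, ⟨h, hjt⟩, hxj⟩
        · simp at hjt
      exact fun h => hs.Y (VV_mono h this)
    · intro i' hi' j hj hti htj hij
      rcases Nat.lt_succ_iff_lt_or_eq.1 hi' with h | rfl
      · rcases Nat.lt_succ_iff_lt_or_eq.1 hj with h' | rfl
        · simp only [Function.update_of_ne (hne _ h)] at hti ⊢
          simp only [Function.update_of_ne (hne _ h')] at htj ⊢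
          exact hs.disj i' h j h' hti htj hij
        · simp at htj
      · simp at hti
    · intro j hj htj
      rcases Nat.lt_succ_iff_lt_or_eq.1 hj with h | rfl
      · simp only [Function.update_of_ne (hne _ h)] at htj ⊢
        exact hs.kill j h htj
      · simp at htj
  · refine ⟨rfl, ?_, ?_, ?_, Subset.rfl, le_max_left _ _, le_max_right _ _, ?_, ?_, ?_⟩
    · intro j hj
      simp only [Function.update_of_ne (hne j hj)]
    · intro j hj
      simp only [Function.update_of_ne (hne j hj)]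
    · intro j hj
      simp only [Function.update_of_ne (hne j hj)]
    · intro h
      simp at h
    · intro a' ha' _
      have : a' = a := by omega
      subst this
      refine ⟨i, hi, by simp, ?_⟩
      simp only [Function.update_self]
      exact (hQ'Q.trans hQ).trans (inter_subset_inter_left _ (hs.cE a' ha))
    · intro h
      omega

/-- top steps exist -/
theorem fi_top (hT : IsTower T) (hB : ∀ ξ, B ξ ∈ VV T)
    (hB2 : ∀ {n : ℕ} {t : ℕ → Ω} {c : ℕ → Set ℕ}, LL T B k n t c → ∀ γ₀ : Ω,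
      ∃ γ, γ₀ ≤ γ ∧ ∃ (c' : ℕ → Set ℕ) (P : Set ℕ), Ref T n t c' c ∧ Lg T γ P ∧
        (∀ c'' P', Ref T n t c'' c' → P' ⊆ P → Lg T γ P' →
          ¬ (DD T B k n t c'' γ P').Countable) ∧
        LL T B k (n + 1) (Function.update t n γ) (Function.update c' n P))
    (s : FiSt Ω) (hs : FiInv T B k s) (e : Ω)
    (hau : ∀ a, (Nat.unpair s.n).1 = a + 1 → s.t a = ⊥) :
    ∃ s', FiInv T B k s' ∧ FiStep T s e s' := by
  have hne : ∀ j < s.n, j ≠ s.n := fun j hj => hj.ne
  have hZ : (fi_Y s)ᶜ ∩ (⋂ ξ ∈ s.X, B ξ) ∈ VV T :=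
    VV_inter hT.wf (compl_mem_of_notMem hT hs.Y) (fi_biInter_mem hT.wf hB hs.fin)
  set Z := (fi_Y s)ᶜ ∩ (⋂ ξ ∈ s.X, B ξ) with hZdef
  obtain ⟨θ, hθ⟩ := exists_theta hT.wf hZ
  obtain ⟨b, hb⟩ := exists_ne_bot (Ω := Ω)
  obtain ⟨γ, hγ, c', P, hc', hP, hal, hLL⟩ := hB2 hs.ll (max (max s.η e) (max θ b))
  have hγη : s.η ≤ γ := ((le_max_left _ _).trans (le_max_left _ _)).trans hγ
  have hγe : e ≤ γ := ((le_max_right _ _).trans (le_max_left _ _)).trans hγ
  have hγθ : θ ≤ γ := ((le_max_left _ _).trans (le_max_right _ _)).trans hγ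
  have hγb : b ≤ γ := ((le_max_right _ _).trans (le_max_right _ _)).trans hγ
  have hγ0 : γ ≠ ⊥ := fun h => hb (le_bot_iff.1 (h ▸ hγb))
  have hPZ : Lg T γ (P ∩ Z) := Lg_inter_of_diff hP
    (fun h => hθ γ hγθ (Lg_mono (fun x hx => hx.2) h))
  obtain ⟨P₂, hP₂, hP₂l, hP₂V⟩ := exists_split hT hγ0 hPZ
  have hc1 : ∀ j < s.n, Lg T (s.t j) (c' j ∩ s.c j) := hc'.inter
  have hdd := hal (fun j => c' j ∩ s.c j) P₂ (Ref.of_subset hc1 fun j _ => inter_subset_left)
    (hP₂.trans inter_subset_left) hP₂l
  obtain ⟨ξ, hξ, hξ0⟩ : ∃ ξ ∈ DD T B k s.n s.t (fun j => c' j ∩ s.c j) γ P₂, ξ ≠ ⊥ := by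
    by_contra hcon
    push Not at hcon
    exact hdd ((countable_singleton (⊥ : Ω)).mono fun ξ hξ => hcon ξ hξ)
  set En := P₂ ∩ (B ξ \ xx T ξ k) with hEn
  have hEnl : Lg T γ En := hξ.2
  set c2 : ℕ → Set ℕ := fun j => c' j ∩ s.c j ∩ B ξ with hc2
  have hc2l : ∀ j < s.n, Lg T (s.t j) (c2 j) := hξ.1
  refine ⟨⟨s.n + 1, Function.update s.t s.n γ, Function.update c2 s.n En,
    Function.update s.E s.n En, Function.update s.top s.n True, insert ξ s.X,
    max γ s.η⟩, ?_, ?_⟩
  · refine ⟨?_, ?_, hs.fin.insert ξ, ?_, ?_, ?_, ?_, ?_, ?_, ?_⟩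
    · -- LL
      refine LL_mono hLL (Ref.of_subset ?_ ?_)
      · intro j hj
        rcases Nat.lt_succ_iff_lt_or_eq.1 hj with h | rfl
        · simp only [Function.update_of_ne (hne j h)]
          exact hc2l j h
        · simpa using hEnl
      · intro j hj
        rcases Nat.lt_succ_iff_lt_or_eq.1 hj with h | rfl
        · simp only [Function.update_of_ne (hne j h)]
          exact inter_subset_left.trans inter_subset_left
        · simp only [Function.update_self]
          exact inter_subset_left.trans (hP₂.trans inter_subset_left)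
    · intro j hj
      rcases Nat.lt_succ_iff_lt_or_eq.1 hj with h | rfl
      · simp only [Function.update_of_ne (hne j h)]
        exact (inter_subset_left.trans inter_subset_right).trans (hs.cE j h)
      · simp
    · intro ζ hζ
      rcases mem_insert_iff.1 hζ with rfl | hζ
      · exact hξ0
      · exact hs.xbot ζ hζ
    · intro ζ hζ j hj
      rcases Nat.lt_succ_iff_lt_or_eq.1 hj with h | rfl
      · simp only [Function.update_of_ne (hne j h)]
        rcases mem_insert_iff.1 hζ with rfl | hζ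
        · exact inter_subset_right
        · exact (inter_subset_left.trans inter_subset_right).trans (hs.cB ζ hζ j h)
      · simp only [Function.update_self]
        rcases mem_insert_iff.1 hζ with rfl | hζ
        · exact fun x hx => hx.2.1
        · intro x hx
          have h1 : x ∈ Z := (hP₂ hx.1).2
          exact mem_iInter₂.1 h1.2 ζ hζ
    · intro j hj
      rcases Nat.lt_succ_iff_lt_or_eq.1 hj with h | rfl
      · simp only [Function.update_of_ne (hne j h)]
        exact (hs.tη j h).trans (le_max_right _ _)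
      · simp only [Function.update_self]
        exact le_max_left _ _
    · intro j hj
      rcases Nat.lt_succ_iff_lt_or_eq.1 hj with h | rfl
      · simp only [Function.update_of_ne (hne j h)]
        exact hs.pt j h
      · simp only [Function.update_self]
        exact fun h => absurd h hγ0
    · have : fi_Y (⟨s.n + 1, Function.update s.t s.n γ, Function.update c2 s.n En,
          Function.update s.E s.n En, Function.update s.top s.n True, insert ξ s.X,
          max γ s.η⟩ : FiSt Ω) ⊆ fi_Y s ∪ En := by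
        intro x hx
        simp only [fi_Y, mem_iUnion, exists_prop, mem_union] at hx ⊢
        obtain ⟨j, ⟨hj, hjt⟩, hxj⟩ := hx
        rcases Nat.lt_succ_iff_lt_or_eq.1 hj with h | rfl
        · rw [Function.update_of_ne (hne j h)] at hjt hxj
          exact Or.inl ⟨j, ⟨h, hjt⟩, hxj⟩
        · rw [Function.update_self] at hxj
          exact Or.inr hxj
      have hEnV : En ∉ VV T := fun h => hP₂V (VV_mono h inter_subset_left)
      exact fun h => union_notMem hT hs.Y hEnV (VV_mono h this)
    · have hdis : ∀ j < s.n, s.top j → Disjoint En (s.E j) := by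
        intro j hj htj
        rw [Set.disjoint_left]
        intro x hx hxj
        have h1 : x ∈ Z := (hP₂ hx.1).2
        apply h1.1
        simp only [fi_Y, mem_iUnion, exists_prop]
        exact ⟨j, ⟨hj, htj⟩, hxj⟩
      intro i' hi' j hj hti htj hij
      rcases Nat.lt_succ_iff_lt_or_eq.1 hi' with h | rfl
      · rcases Nat.lt_succ_iff_lt_or_eq.1 hj with h' | rfl
        · simp only [Function.update_of_ne (hne _ h)] at hti ⊢
          simp only [Function.update_of_ne (hne _ h')] at htj ⊢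
          exact hs.disj i' h j h' hti htj hij
        · simp only [Function.update_of_ne (hne _ h)] at hti ⊢
          simp only [Function.update_self]
          exact (hdis i' h hti).symm
      · rcases Nat.lt_succ_iff_lt_or_eq.1 hj with h' | rfl
        · simp only [Function.update_of_ne (hne _ h')] at htj ⊢
          simp only [Function.update_self]
          exact hdis j h' htj
        · exact absurd rfl hij
    · intro j hj htj
      rcases Nat.lt_succ_iff_lt_or_eq.1 hj with h | rfl
      · simp only [Function.update_of_ne (hne _ h)] at htj ⊢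
        obtain ⟨ζ, hζ, hζd⟩ := hs.kill j h htj
        exact ⟨ζ, mem_insert_of_mem _ hζ, hζd⟩
      · refine ⟨ξ, mem_insert _ _, ?_⟩
        simp only [Function.update_self]
        rw [Set.disjoint_left]
        exact fun x hx hx' => hx.2.2 hx'
  · refine ⟨rfl, ?_, ?_, ?_, subset_insert _ _, le_max_right _ _, ?_, ?_, ?_, ?_⟩
    · intro j hj
      simp only [Function.update_of_ne (hne j hj)]
    · intro j hj
      simp only [Function.update_of_ne (hne j hj)]
    · intro j hj
      simp only [Function.update_of_ne (hne j hj)]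
    · exact hγe.trans (le_max_left _ _)
    · intro _
      simp only [Function.update_self]
      exact hγη
    · intro a ha hta
      exact absurd (hau a ha) hta
    · intro _
      simp only [Function.update_self]

end Steps

open Classical in
/-- output of a state -/
noncomputable def fi_out (B : Ω → Set ℕ) (s : FiSt Ω) : Out Ω :=
  (fun i => if i < s.n then (if s.top i then s.E i ∩ ⋂ ξ ∈ s.X, B ξ else ∅) else Set.univ,
    fun _ => Set.univ, if s.top (s.n - 1) then s.t (s.n - 1) else s.η)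

variable {T : Ω → Lev Ω} {B : Ω → Set ℕ}

/-- TUK-FINAL with the modules B1, B2, B3 as hypotheses -/
theorem main_star_of (hT : IsTower T) (hB : ∀ ξ, B ξ ∈ VV T)
    (hB1 : ∃ k, ∀ (t : ℕ → Ω) (c : ℕ → Set ℕ), LL T B k 0 t c)
    (hB2 : ∀ {k n : ℕ} {t : ℕ → Ω} {c : ℕ → Set ℕ}, LL T B k n t c → ∀ γ₀ : Ω,
      ∃ γ, γ₀ ≤ γ ∧ ∃ (c' : ℕ → Set ℕ) (P : Set ℕ), Ref T n t c' c ∧ Lg T γ P ∧
        (∀ c'' P', Ref T n t c'' c' → P' ⊆ P → Lg T γ P' →
          ¬ (DD T B k n t c'' γ P').Countable) ∧
        LL T B k (n + 1) (Function.update t n γ) (Function.update c' n P))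
    (hB3 : ∀ {k n : ℕ} {t : ℕ → Ω} {c : ℕ → Set ℕ}, LL T B k n t c → ∀ {j : ℕ}, j < n →
      t j ≠ ⊥ → ∀ m : ℕ,
      ∃ i, m ≤ i ∧ ∃ (c' : ℕ → Set ℕ) (Q : Set ℕ), (∀ l < n, c' l ⊆ c l) ∧
        Q ⊆ c j ∩ (T (t j)).2 i ∧
        LL T B k (n + 1) (Function.update t n ((T (t j)).1 i)) (Function.update c' n Q)) :
    ∃ (k : ℕ) (H : Set Ω), (∀ ξ ∈ H, ξ ≠ ⊥) ∧ (⋂ ξ ∈ H, B ξ) ∈ VV T ∧
      (⋂ ξ ∈ H, xx T ξ k) ∉ VV T := by
  obtain ⟨k, hk⟩ := hB1
  have hstep : ∀ (s : {s : FiSt Ω // FiInv T B k s}) (e : Ω),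
      ∃ s' : {s : FiSt Ω // FiInv T B k s}, FiStep T s.1 e s'.1 := by
    rintro ⟨s, hs⟩ e
    suffices h : ∃ s', FiInv T B k s' ∧ FiStep T s e s' by
      obtain ⟨s', h1, h2⟩ := h
      exact ⟨⟨s', h1⟩, h2⟩
    by_cases h : ∃ a, (Nat.unpair s.n).1 = a + 1 ∧ s.t a ≠ ⊥
    · obtain ⟨a, ha, hta⟩ := h
      have hle := Nat.unpair_left_le s.n
      exact fi_child hT.wf (fun h => hB3 h) s hs e (by omega) hta ha
    · push Not at h
      exact fi_top hT hB (fun h => hB2 h) s hs e h
  let s0 : {s : FiSt Ω // FiInv T B k s} :=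
    ⟨⟨0, fun _ => ⊥, fun _ => ∅, fun _ => ∅, fun _ => False, ∅, ⊥⟩, by
      refine ⟨hk _ _, ?_, finite_empty, ?_, ?_, ?_, ?_, ?_, ?_, ?_⟩
      · intro j hj; exact absurd hj (Nat.not_lt_zero j)
      · intro ξ hξ; exact absurd hξ (notMem_empty ξ)
      · intro ξ hξ; exact absurd hξ (notMem_empty ξ)
      · intro j hj; exact absurd hj (Nat.not_lt_zero j)
      · intro j hj; exact absurd hj (Nat.not_lt_zero j)
      · have : fi_Y (⟨0, fun _ => ⊥, fun _ => ∅, fun _ => ∅, fun _ => False, ∅, ⊥⟩ : FiSt Ω) =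
            ∅ := by
          simp [fi_Y]
        rw [this]
        exact empty_notMem_VV hT.wf
      · intro j hj; exact absurd hj (Nat.not_lt_zero j)
      · intro j hj; exact absurd hj (Nat.not_lt_zero j)⟩
  obtain ⟨δ, hδ, e, r, he, hr0, hr, hβ, hadm⟩ := hT.run {s : FiSt Ω // FiInv T B k s} s0
    (fun s e s' => FiStep T s.1 e s'.1) hstep (fun s => fi_out B s.1) (fun s => s.1.η)
  -- the number of nodes
  have hn : ∀ m, (r m).1.n = m := by
    intro m
    induction m with
    | zero => rw [hr0]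
    | succ m ih => rw [(hr m).n, ih]
  -- stabilisation
  have hst : ∀ j m, j < m → (r m).1.t j = (r (j + 1)).1.t j ∧ (r m).1.E j = (r (j + 1)).1.E j ∧
      ((r m).1.top j ↔ (r (j + 1)).1.top j) := by
    intro j m hjm
    induction m, hjm using Nat.le_induction with
    | base => exact ⟨rfl, rfl, Iff.rfl⟩
    | succ m hm ih =>
      have hj : j < (r m).1.n := by rw [hn]; exact hm
      exact ⟨((hr m).t j hj).trans ih.1, ((hr m).E j hj).trans ih.2.1,
        ((hr m).top j hj).trans ih.2.2⟩
  have hXm : ∀ l m, l ≤ m → (r l).1.X ⊆ (r m).1.X := by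
    intro l m hlm
    induction m, hlm using Nat.le_induction with
    | base => exact Subset.rfl
    | succ m hm ih => exact ih.trans (hr m).X
  have hηm : ∀ l m, l ≤ m → (r l).1.η ≤ (r m).1.η := by
    intro l m hlm
    induction m, hlm using Nat.le_induction with
    | base => exact le_rfl
    | succ m hm ih => exact ih.trans (hr m).η
  set H : Set Ω := ⋃ m, (r m).1.X with hH
  set τ : ℕ → Ω := fun j => (r (j + 1)).1.t j with hτ
  set EE : ℕ → Set ℕ := fun j => (r (j + 1)).1.E j with hEE
  set tp : ℕ → Prop := fun j => (r (j + 1)).1.top j with htp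
  -- the main claim
  have claim : ∀ α : Ω, ∀ j, τ j = α → Lg T α (EE j ∩ ⋂ ξ ∈ H, B ξ) := by
    intro α
    induction α using WellFoundedLT.induction with
    | ind α ih =>
      intro j hj
      by_cases hα : α = ⊥
      · subst hα
        rw [Lg_bot]
        have hpt : (EE j).Subsingleton := (r (j + 1)).2.pt j (by rw [hn]; omega) hj
        have hnon : ∀ m, j < m → ((r m).1.c j).Nonempty := by
          intro m hm
          have h1 := (r m).2.ll.1 j (by rw [hn]; exact hm)
          rw [(hst j m hm).1, show (r (j + 1)).1.t j = ⊥ from hj, Lg_bot] at h1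
          exact h1
        obtain ⟨x, hx⟩ := hnon (j + 1) (Nat.lt_succ_self j)
        have hxE : x ∈ EE j := (r (j + 1)).2.cE j (by rw [hn]; omega) hx
        refine ⟨x, hxE, mem_iInter₂.2 fun ξ hξ => ?_⟩
        obtain ⟨m, hm⟩ := mem_iUnion.1 hξ
        have hM : j < max m (j + 1) := (Nat.lt_succ_self j).trans_le (le_max_right _ _)
        obtain ⟨y, hy⟩ := hnon (max m (j + 1)) hM
        have hyE : y ∈ EE j := by
          have := (r (max m (j + 1))).2.cE j (by rw [hn]; exact hM) hy
          rw [(hst j _ hM).2.1] at this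
          exact this
        have hyB := (r (max m (j + 1))).2.cB ξ (hXm m _ (le_max_left _ _) hm) j
          (by rw [hn]; exact hM) hy
        rwa [hpt hxE hyE]
      · rw [Lg_iff hT.wf hα, Set.infinite_iff_exists_gt]
        intro N
        -- the child step number `n = pair (j+1) N'`
        obtain ⟨n, hnj, hnN, hnu⟩ : ∃ n, j < n ∧ N < n ∧ (Nat.unpair n).1 = j + 1 := by
          refine ⟨Nat.pair (j + 1) (N + 1), ?_, ?_, ?_⟩
          · exact Nat.lt_of_succ_le (Nat.left_le_pair _ _)
          · exact Nat.lt_of_succ_le (Nat.right_le_pair _ _)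
          · rw [Nat.unpair_pair]
        have htj : (r n).1.t j = α := (hst j n hnj).1.trans hj
        obtain ⟨i, hi, hti, hEi⟩ := (hr n).child j (by rw [hn]; exact hnu)
          (by rw [htj]; exact hα)
        rw [hn] at hi hti hEi
        rw [htj] at hti hEi
        rw [(hst j n hnj).2.1] at hEi
        refine ⟨i, ?_, hnN.trans_le hi⟩
        have hlt : (T α).1 i < α := (hT.wf α hα).lt i
        have := ih _ hlt n hti
        refine Lg_mono ?_ this
        rintro x ⟨hx1, hx2⟩
        exact ⟨⟨(hEi hx1).1, hx2⟩, (hEi hx1).2⟩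
  -- the outputs
  have hout1 : ∀ n i, i < n → tp i →
      (fi_out B (r n).1).1 i = EE i ∩ ⋂ ξ ∈ (r n).1.X, B ξ := by
    intro n i hin hti
    simp only [fi_out, hn, if_pos hin]
    rw [if_pos ((hst i n hin).2.2.2 hti), (hst i n hin).2.1]
  have hout2 : ∀ n i, i < n → ¬ tp i → (fi_out B (r n).1).1 i = ∅ := by
    intro n i hin hti
    simp only [fi_out, hn, if_pos hin]
    rw [if_neg (fun h => hti ((hst i n hin).2.2.1 h))]
  have hout3 : ∀ n i, n ≤ i → (fi_out B (r n).1).1 i = Set.univ := by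
    intro n i hin
    simp only [fi_out, hn, if_neg (not_lt.2 hin)]
  have hty1 : ∀ i, tp i → (fi_out B (r (i + 1)).1).2.2 = τ i := by
    intro i hti
    have h1 : (r (i + 1)).1.n - 1 = i := by rw [hn, Nat.add_sub_cancel]
    simp only [fi_out]
    rw [if_pos (by rw [h1]; exact hti), h1]
  have hty2 : ∀ i, ¬ tp i → (fi_out B (r (i + 1)).1).2.2 = (r (i + 1)).1.η := by
    intro i hti
    have h1 : (r (i + 1)).1.n - 1 = i := by rw [hn, Nat.add_sub_cancel]
    simp only [fi_out]
    rw [if_neg (by rw [h1]; exact hti)]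
  have hinf : ∀ N, ∃ i, N < i ∧ tp i := by
    intro N
    refine ⟨Nat.pair 0 (N + 1), Nat.lt_of_succ_le (Nat.right_le_pair _ _), ?_⟩
    have := (hr (Nat.pair 0 (N + 1))).istop (by rw [hn, Nat.unpair_pair])
    rw [hn] at this
    exact this
  have hQ : ∃ Q, Adm T δ (fun n => fi_out B (r n).1) Q := by
    classical
    refine ⟨fun i => if tp i then EE i ∩ ⋂ ξ ∈ H, B ξ else ∅, ?_, ?_, ?_⟩
    · refine ⟨?_, ?_, ?_, ?_⟩
      · intro i
        by_cases hti : tp i
        · rw [hty1 i hti]
          exact ((r (i + 1)).2.tη i (by rw [hn]; omega)).trans_lt (hβ (i + 1))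
        · rw [hty2 i hti]
          exact hβ (i + 1)
      · intro γ hγ
        obtain ⟨m, hm⟩ := he γ hγ
        refine Filter.eventually_atTop.2 ⟨m + 1, fun i hi => ?_⟩
        have h1 : γ ≤ (r i).1.η := by
          rw [← hm]
          exact (hr m).e.trans (hηm _ _ hi)
        by_cases hti : tp i
        · rw [hty1 i hti]
          have := (hr i).ht (by rw [hn]; exact hti)
          rw [hn] at this
          exact h1.trans this
        · rw [hty2 i hti]
          exact h1.trans (hr i).η
      · intro i j hij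
        show Disjoint (if tp i then EE i ∩ ⋂ ξ ∈ H, B ξ else ∅)
          (if tp j then EE j ∩ ⋂ ξ ∈ H, B ξ else ∅)
        by_cases hti : tp i
        · by_cases htj : tp j
          · rw [if_pos hti, if_pos htj]
            have hi' : i < max i j + 1 := Nat.lt_succ_of_le (le_max_left _ _)
            have hj' : j < max i j + 1 := Nat.lt_succ_of_le (le_max_right _ _)
            have := (r (max i j + 1)).2.disj i (by rw [hn]; exact hi') j (by rw [hn]; exact hj')
              ((hst i _ hi').2.2.2 hti) ((hst j _ hj').2.2.2 htj) hij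
            rw [(hst i _ hi').2.1, (hst j _ hj').2.1] at this
            exact this.mono inter_subset_left inter_subset_left
          · rw [if_neg htj]; exact disjoint_bot_right
        · rw [if_neg hti]; exact disjoint_bot_left
      · rw [Set.infinite_iff_exists_gt]
        intro N
        obtain ⟨i, hi, hti⟩ := hinf N
        refine ⟨i, ?_, hi⟩
        show Lg T _ _
        rw [hty1 i hti, if_pos hti]
        exact claim _ i rfl
    · intro n i
      by_cases hin : i < n
      · by_cases hti : tp i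
        · rw [if_pos hti, hout1 n i hin hti]
          refine inter_subset_inter_right _ ?_
          exact biInter_subset_biInter_left (subset_iUnion (fun m => (r m).1.X) n)
        · rw [if_neg hti]; exact empty_subset _
      · rw [hout3 n i (not_lt.1 hin)]
        exact subset_univ _
    · intro n i
      have : (fi_out B (r n).1).2.1 i = Set.univ := rfl
      rw [this, Set.sdiff_univ]
      exact not_Lg_empty T _
  obtain ⟨_, hA⟩ := hadm hQ
  have hsub : ∀ i n, (T δ).2 i ⊆ (fi_out B (r n).1).1 i := fun i n => hA.sub n i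
  refine ⟨k, H, ?_, ?_, ?_⟩
  · intro ξ hξ
    obtain ⟨m, hm⟩ := mem_iUnion.1 hξ
    exact (r m).2.xbot ξ hm
  · refine VV_mono (iUnion_mem_VV hT.wf hδ) (iUnion_subset fun i => ?_)
    refine subset_iInter₂ fun ξ hξ => ?_
    obtain ⟨m, hm⟩ := mem_iUnion.1 hξ
    have hi : i < max m (i + 1) := (Nat.lt_succ_self i).trans_le (le_max_right _ _)
    refine (hsub i (max m (i + 1))).trans ?_
    by_cases hti : tp i
    · rw [hout1 _ i hi hti]
      exact inter_subset_right.trans (biInter_subset_of_mem (hXm m _ (le_max_left _ _) hm))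
    · rw [hout2 _ i hi hti]
      exact empty_subset _
  · intro hV
    have h1 : (⋂ ξ ∈ H, xx T ξ k) ⊆ (⋃ i, (T δ).2 i)ᶜ := by
      intro x hx hx'
      obtain ⟨i, hi⟩ := mem_iUnion.1 hx'
      by_cases hti : tp i
      · obtain ⟨ξ, hξ, hd⟩ := (r (i + 1)).2.kill i (by rw [hn]; omega) hti
        have h2 : x ∈ xx T ξ k := mem_iInter₂.1 hx ξ (mem_iUnion.2 ⟨_, hξ⟩)
        have h3 := hsub i (i + 1) hi
        rw [hout1 _ i (Nat.lt_succ_self i) hti] at h3
        exact Set.disjoint_left.1 hd h3.1 h2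
      · have h3 := hsub i (i + 1) hi
        rw [hout2 _ i (Nat.lt_succ_self i) hti] at h3
        exact h3
    exact compl_notMem hT.wf (iUnion_mem_VV hT.wf hδ) (VV_mono hV h1)

end Pool.Agent.Helper46.Tuk
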