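import Pool.Agent.Helper46.Tuk.Basic

/-!
# Diamond gives the run principle (module TUK-RUN)
-/

namespace Pool.Agent.Helper46.Tuk

open Set Filter

variable {Ω : Type} [LinearOrder Ω] [OrderBot Ω] [IsOm1 Ω]

/-- closed unbounded sets of `Ω` -/
def IsClubΩ (C : Set Ω) : Prop :=
  (∀ a, ∃ c ∈ C, a < c) ∧ ∀ δ, δ ≠ ⊥ → (∀ a < δ, ∃ c ∈ C, a < c ∧ c < δ) → δ ∈ C

/-- diamond on `Ω` -/
def DiamondΩ (Ω : Type) [LinearOrder Ω] [OrderBot Ω] : Prop :=
  ∃ A : Ω → Set Ω, ∀ X C : Set Ω, IsClubΩ C → ∃ δ ∈ C, X ∩ Set.Iio δ = A δ ∩ Set.Iio δ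

/-- the run principle for the enumerations `e` and guesses `b` -/
def RunPr (e : Ω → ℕ → Ω) (b : Ω → ℕ → Out Ω) : Prop :=
  ∀ (S : Type) (s0 : S) (Step : S → Ω → S → Prop) (_ : ∀ s e, ∃ s', Step s e s')
    (out : S → Out Ω) (β : S → Ω), ∃ δ, δ ≠ ⊥ ∧ ∃ r : ℕ → S,
      (∀ γ < δ, ∃ n, e δ n = γ) ∧ r 0 = s0 ∧ (∀ n, Step (r n) (e δ n) (r (n + 1))) ∧
      (∀ n, β (r n) < δ) ∧ ∀ n, out (r n) = b δ n

theorem rn_infinite : Infinite Ω := by
  by_contra h
  rw [not_infinite_iff_finite] at h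
  exact IsOm1.unctbl (Ω := Ω) (Set.countable_univ_iff.mpr inferInstance)

theorem rn_exists_J : ∃ J : List Ω × ℕ → Ω, Function.Injective J := by
  haveI := rn_infinite (Ω := Ω)
  have h1 : Cardinal.mk (List Ω × ℕ) = Cardinal.mk Ω := by
    rw [Cardinal.mk_prod, Cardinal.mk_list_eq_mk]
    simp
  obtain ⟨f⟩ := Cardinal.eq.mp h1
  exact ⟨f, f.injective⟩

theorem rn_card_le : Cardinal.mk Ω ≤ Cardinal.aleph 1 := by
  have h1 : Ordinal.type (α := Ω) (· < ·) ≤ (Cardinal.aleph 1).ord := by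
    apply le_of_forall_lt
    intro o ho
    obtain ⟨a, rfl⟩ := Ordinal.typein_surj (α := Ω) (· < ·) ho
    rw [Cardinal.lt_ord]
    have h2 : (Ordinal.typein (α := Ω) (· < ·) a).card ≤ Cardinal.aleph0 := by
      rw [Ordinal.card_typein]
      exact Cardinal.mk_le_aleph0_iff.mpr ((IsOm1.ctbl a).to_subtype)
    refine lt_of_le_of_lt h2 ?_
    rw [← Cardinal.aleph_zero]
    exact Cardinal.aleph_lt_aleph.2 zero_lt_one
  have h3 := Ordinal.card_le_card h1
  rwa [Ordinal.card_type, Cardinal.card_ord] at h3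

theorem rn_exists_cod : ∃ cod : Out Ω → Set ℕ, Function.Injective cod := by
  have h1 : Cardinal.mk (Out Ω) ≤ Cardinal.mk (Set ℕ) := by
    have hΩ : Cardinal.mk Ω ≤ Cardinal.continuum :=
      rn_card_le.trans Cardinal.aleph_one_le_continuum
    have hS : Cardinal.mk (Set ℕ) = Cardinal.continuum := by
      rw [Cardinal.mk_set, Cardinal.mk_nat, Cardinal.two_power_aleph0]
    have hF : Cardinal.mk (ℕ → Set ℕ) = Cardinal.continuum := by
      rw [← Cardinal.power_def, hS, Cardinal.mk_nat, Cardinal.continuum_power_aleph0]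
    have h2 : Cardinal.mk (Out Ω) =
        Cardinal.mk (ℕ → Set ℕ) * (Cardinal.mk (ℕ → Set ℕ) * Cardinal.mk Ω) := by
      rw [Cardinal.mul_def, Cardinal.mul_def]
    rw [h2, hF, hS]
    calc Cardinal.continuum * (Cardinal.continuum * Cardinal.mk Ω)
        ≤ Cardinal.continuum * (Cardinal.continuum * Cardinal.continuum) := by gcongr
      _ = Cardinal.continuum := by
        rw [Cardinal.continuum_mul_self, Cardinal.continuum_mul_self]
  obtain ⟨f⟩ := Cardinal.le_def _ _ |>.mp h1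
  exact ⟨f, f.injective⟩

/-- A finite list of elements below a limit of `C` lies below an element of `C`. -/
theorem rn_list_bdd {C : Set Ω} {δ : Ω} (hδ : δ ≠ ⊥)
    (h : ∀ a < δ, ∃ c ∈ C, a < c ∧ c < δ) (l : List Ω) (hl : ∀ x ∈ l, x < δ) :
    ∃ c ∈ C, c < δ ∧ ∀ x ∈ l, x < c := by
  induction l with
  | nil =>
    obtain ⟨c, hc, _, hc2⟩ := h ⊥ (bot_lt_iff_ne_bot.mpr hδ)
    exact ⟨c, hc, hc2, by simp⟩
  | cons x l ih =>
    obtain ⟨c, hc, hc1, hc2⟩ := ih (fun y hy => hl y (List.mem_cons_of_mem _ hy))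
    obtain ⟨d, hd, hd1, hd2⟩ := h x (hl x List.mem_cons_self)
    rcases le_total c d with hcd | hcd
    · refine ⟨d, hd, hd2, ?_⟩
      intro y hy
      rcases List.mem_cons.mp hy with rfl | hy
      · exact hd1
      · exact (hc2 y hy).trans_le hcd
    · refine ⟨c, hc, hc1, ?_⟩
      intro y hy
      rcases List.mem_cons.mp hy with rfl | hy
      · exact hd1.trans_le hcd
      · exact hc2 y hy

/-- The set of closure points of a countable system of functions on lists is club. -/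
theorem rn_club (f : List Ω × ℕ → Ω) (g : List Ω → Ω) :
    IsClubΩ {δ : Ω | δ ≠ ⊥ ∧ ∀ l : List Ω, (∀ x ∈ l, x < δ) → (∀ m, f (l, m) < δ) ∧ g l < δ} := by
  classical
  constructor
  · intro a
    -- one step of the closure
    have hstep : ∀ b : Ω, ∃ b', b < b' ∧ ∀ l : List Ω, (∀ x ∈ l, x < b) →
        (∀ m, f (l, m) < b') ∧ g l < b' := by
      intro b
      have hL : {l : List Ω | ∀ x ∈ l, x ∈ Set.Iio b}.Countable := by
        rw [← Set.range_list_map_coe]
        haveI : Countable (Set.Iio b) := (IsOm1.ctbl b).to_subtype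
        exact Set.countable_range _
      have h1 : ((⋃ l ∈ {l : List Ω | ∀ x ∈ l, x ∈ Set.Iio b},
          (Set.range (fun m => f (l, m)) ∪ {g l})) ∪ {b}).Countable := by
        refine (hL.biUnion fun l _ => ?_).union (Set.countable_singleton b)
        exact (Set.countable_range _).union (Set.countable_singleton _)
      obtain ⟨b', hb'⟩ := exists_gt_of_countable _ h1
      refine ⟨b', hb' b (Or.inr rfl), ?_⟩
      intro l hl
      refine ⟨fun m => hb' _ (Or.inl (Set.mem_biUnion (x := l) hl (Or.inl ⟨m, rfl⟩))),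
        hb' _ (Or.inl (Set.mem_biUnion (x := l) hl (Or.inr rfl)))⟩
    choose nx hnx1 hnx2 using hstep
    obtain ⟨a0, ha0⟩ := exists_gt' a
    let s : ℕ → Ω := fun n => nx^[n] a0
    have hs0 : s 0 = a0 := rfl
    have hss : ∀ n, s (n + 1) = nx (s n) := fun n => Function.iterate_succ_apply' nx n a0
    have hmono : StrictMono s := strictMono_nat_of_lt_succ fun n => by
      rw [hss]; exact hnx1 _
    obtain ⟨u, hu⟩ := exists_gt_seq s
    let c : Ω := wellFounded_lt.min {x : Ω | ∀ n, s n < x} ⟨u, hu⟩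
    have hc : ∀ n, s n < c := wellFounded_lt.min_mem {x : Ω | ∀ n, s n < x} ⟨u, hu⟩
    have hc' : ∀ x < c, ∃ n, x ≤ s n := by
      intro x hx
      by_contra hcon
      push Not at hcon
      exact wellFounded_lt.not_lt_min {x : Ω | ∀ n, s n < x} hcon hx
    refine ⟨c, ⟨?_, ?_⟩, ha0.trans (hc 0)⟩
    · exact (bot_le.trans_lt (hc 0)).ne'
    · intro l hl
      have h1 : ∃ n, ∀ x ∈ l, x < s n := by
        clear_value c
        induction l with
        | nil => exact ⟨0, by simp⟩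
        | cons x l ih =>
          obtain ⟨n, hn⟩ := ih (fun y hy => hl y (List.mem_cons_of_mem _ hy))
          obtain ⟨m, hm⟩ := hc' x (hl x List.mem_cons_self)
          refine ⟨max n (m + 1), ?_⟩
          intro y hy
          rcases List.mem_cons.mp hy with rfl | hy
          · exact hm.trans_lt ((hmono (Nat.lt_succ_self m)).trans_le
              (hmono.monotone (le_max_right _ _)))
          · exact (hn y hy).trans_le (hmono.monotone (le_max_left _ _))
      obtain ⟨n, hn⟩ := h1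
      have h2 := hnx2 (s n) l hn
      rw [← hss] at h2
      exact ⟨fun m => (h2.1 m).trans (hc _), h2.2.trans (hc _)⟩
  · intro δ hδ h
    refine ⟨hδ, ?_⟩
    intro l hl
    obtain ⟨c, hc, hcδ, hlc⟩ := rn_list_bdd hδ h l hl
    have := hc.2 l hlc
    exact ⟨fun m => (this.1 m).trans hcδ, this.2.trans hcδ⟩

theorem exists_runPr (h : DiamondΩ Ω) : ∃ (e : Ω → ℕ → Ω) (b : Ω → ℕ → Out Ω), RunPr e b := by
  classical
  obtain ⟨A, hA⟩ := h
  obtain ⟨J, hJ⟩ := rn_exists_J (Ω := Ω)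
  obtain ⟨cod, hcod⟩ := rn_exists_cod (Ω := Ω)
  haveI : Nonempty (Out Ω) := ⟨(fun _ => ∅, fun _ => ∅, ⊥)⟩
  have he : ∀ δ : Ω, ∃ f : ℕ → Ω, δ ≠ ⊥ → Set.Iio δ = Set.range f := by
    intro δ
    by_cases hδ : δ = ⊥
    · exact ⟨fun _ => ⊥, fun h => absurd hδ h⟩
    · obtain ⟨f, hf⟩ := (IsOm1.ctbl δ).exists_eq_range ⟨⊥, bot_lt_iff_ne_bot.mpr hδ⟩
      exact ⟨f, fun _ => hf⟩
  choose e he using he
  let L : Ω → ℕ → List Ω := fun δ n => (List.range n).map (e δ)
  refine ⟨e, fun δ n => Function.invFun cod {m | J (L δ n, m) ∈ A δ}, ?_⟩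
  intro S s0 Step hStep out β
  choose stp hstp using hStep
  let run : List Ω → S := fun l => l.foldl stp s0
  let X : Set Ω := {x | ∃ l m, m ∈ cod (out (run l)) ∧ J (l, m) = x}
  obtain ⟨δ, hδC, hδ⟩ := hA X _ (rn_club J (fun l => β (run l)))
  obtain ⟨hδ0, hcl⟩ := hδC
  have hrange := he δ hδ0
  have hLδ : ∀ n, ∀ x ∈ L δ n, x < δ := by
    intro n x hx
    obtain ⟨i, _, rfl⟩ := List.mem_map.mp hx
    have : e δ i ∈ Set.Iio δ := by rw [hrange]; exact ⟨i, rfl⟩
    exact this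
  refine ⟨δ, hδ0, fun n => run (L δ n), ?_, rfl, ?_, fun n => (hcl _ (hLδ n)).2, ?_⟩
  · intro γ hγ
    have : γ ∈ Set.range (e δ) := by rw [← hrange]; exact hγ
    exact this
  · intro n
    have h1 : L δ (n + 1) = L δ n ++ [e δ n] := by
      simp only [L, List.range_succ, List.map_append, List.map_cons, List.map_nil]
    have h2 : run (L δ (n + 1)) = stp (run (L δ n)) (e δ n) := by
      rw [h1]
      simp only [run, List.foldl_append, List.foldl_cons, List.foldl_nil]
    change Step (run (L δ n)) (e δ n) (run (L δ (n + 1)))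
    rw [h2]
    exact hstp _ _
  · intro n
    have h1 : {m | J (L δ n, m) ∈ A δ} = cod (out (run (L δ n))) := by
      ext m
      have hlt : J (L δ n, m) < δ := (hcl _ (hLδ n)).1 m
      have h2 : J (L δ n, m) ∈ X ∩ Set.Iio δ ↔ J (L δ n, m) ∈ A δ ∩ Set.Iio δ := by rw [hδ]
      simp only [Set.mem_inter_iff, Set.mem_Iio, hlt, and_true] at h2
      rw [Set.mem_ofPred_eq, ← h2]
      constructor
      · rintro ⟨l, m', hm', hJ'⟩
        have := hJ hJ'
        rw [Prod.mk.injEq] at this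
        rw [← this.1, ← this.2]
        exact hm'
      · intro hm
        exact ⟨_, m, hm, rfl⟩
    change out (run (L δ n)) = Function.invFun cod {m | J (L δ n, m) ∈ A δ}
    rw [h1, Function.leftInverse_invFun hcod]

end Pool.Agent.Helper46.Tuk
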