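import Pool.Agent.Helper46.Tuk.B1
import Pool.Agent.Helper46.Tuk.B2
import Pool.Agent.Helper46.Tuk.B3
import Pool.Agent.Helper46.Tuk.Final
import Pool.Agent.Helper46.Tuk.Tukey
import Pool.Agent.Helper46.Tuk.Run
import Pool.Agent.Helper46.Tuk.Tower
import Pool.Agent.Helper46.Tuk.Diamond

/-!
# Assembly: diamond gives an ultrafilter `U` with `ω^ω ≤_T U <_T U·U`
-/

namespace Pool.Agent.Helper46.Tuk

theorem main (h : Diamond) :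
    ∃ U : Ultrafilter ℕ,
    (∃ f : (ℕ → ℕ) → Set ℕ, (∀ g, f g ∈ U) ∧
        ∀ B ∈ U, ∃ h : ℕ → ℕ, ∀ g, B ⊆ f g → g ≤ h) ∧
    (∃ f : Set ℕ → Set (ℕ × ℕ),
        (∀ A ∈ U, {n | {m | (n, m) ∈ f A} ∈ U} ∈ U) ∧
        ∀ B : Set (ℕ × ℕ), {n | {m | (n, m) ∈ B} ∈ U} ∈ U →
          ∃ C ∈ U, ∀ A ∈ U, B ⊆ f A → C ⊆ A) ∧
    ¬ (∃ f : Set (ℕ × ℕ) → Set ℕ,
        (∀ A : Set (ℕ × ℕ), {n | {m | (n, m) ∈ A} ∈ U} ∈ U → f A ∈ U) ∧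
        ∀ B ∈ U, ∃ C : Set (ℕ × ℕ), {n | {m | (n, m) ∈ C} ∈ U} ∈ U ∧
          ∀ A : Set (ℕ × ℕ), {n | {m | (n, m) ∈ A} ∈ U} ∈ U → B ⊆ f A → C ⊆ A) := by
  obtain ⟨Ω, _, _, _, hΩ⟩ := exists_model h
  obtain ⟨e, b, hr⟩ := exists_runPr hΩ
  obtain ⟨T, hT⟩ := exists_tower e b hr
  refine tukey_of_star hT fun B hB => ?_
  exact main_star_of hT hB (exists_LL_zero hT hB) (fun h => top_ext hT hB h)
    (fun h => child_ext hT.wf h)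

end Pool.Agent.Helper46.Tuk
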