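import Pool.Agent.Helper46.Tuk.Basic

/-!
# Pseudo-intersections and the fusion lemma
-/

namespace Pool.Agent.Helper46.Tuk

open Set Filter

variable {Ω : Type} [LinearOrder Ω] [OrderBot Ω] [IsOm1 Ω]
variable {T : Ω → Lev Ω} {B : Ω → Set ℕ} {k n : ℕ} {t : ℕ → Ω} {c : ℕ → Set ℕ}

/-- a sequence of large sets contained in different sets of the level has a large union -/
theorem Lg_iUnion (hT : WfT T) {α : Ω} (hα : α ≠ ⊥) {idx : ℕ → ℕ}
    (hidx : StrictMono idx) {Q : ℕ → Set ℕ} (hQ : ∀ l, Q l ⊆ (T α).2 (idx l))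
    (hL : ∀ l, Lg T ((T α).1 (idx l)) (Q l)) : Lg T α (⋃ l, Q l) := by
  rw [Lg_iff hT hα]
  refine (Set.infinite_range_of_injective hidx.injective).mono ?_
  rintro _ ⟨l, rfl⟩
  exact Lg_mono (subset_inter (subset_iUnion Q l) (hQ l)) (hL l)

/-- the part of such a union with small indices is small -/
theorem small_iUnion_lt (hT : WfT T) {α : Ω} (hα : α ≠ ⊥) {idx : ℕ → ℕ}
    {Q : ℕ → Set ℕ} (hQ : ∀ l, Q l ⊆ (T α).2 (idx l)) (N : ℕ) {X Y : Set ℕ}
    (hX : X ⊆ ⋃ l, Q l) (hY : ∀ l, N ≤ l → Q l ⊆ Y) : ¬ Lg T α (X \ Y) := by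
  refine small_of_subset hT hα (s := idx '' Set.Iio N) ((Set.finite_Iio N).image idx) ?_
  rintro x ⟨hx, hxY⟩
  obtain ⟨l, hl⟩ := mem_iUnion.1 (hX hx)
  have hlN : l < N := by
    by_contra h
    exact hxY (hY l (not_lt.1 h) hl)
  exact mem_iUnion₂.2 ⟨idx l, ⟨l, hlN, rfl⟩, hQ l hl⟩

/-- pseudo-intersection of a decreasing sequence of large sets -/
theorem exists_pi (hT : WfT T) {α : Ω} (hα : α ≠ ⊥) (R : ℕ → Set ℕ) (hR : ∀ n, R (n + 1) ⊆ R n)
    (hL : ∀ n, Lg T α (R n)) : ∃ R' ⊆ R 0, Lg T α R' ∧ ∀ n, ¬ Lg T α (R' \ R n) := by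
  have hanti : Antitone R := antitone_nat_of_succ_le hR
  have h1 : ∀ n m : ℕ, ∃ i, m < i ∧ Lg T ((T α).1 i) (R n ∩ (T α).2 i) := by
    intro n m
    have h2 := hL n
    rw [Lg_iff hT hα] at h2
    obtain ⟨i, hi, him⟩ := h2.exists_gt m
    exact ⟨i, him, hi⟩
  choose f hf1 hf2 using h1
  let idx : ℕ → ℕ := fun n => Nat.rec (f 0 0) (fun n a => f (n + 1) a) n
  have hidx : StrictMono idx := strictMono_nat_of_lt_succ fun n => hf1 (n + 1) (idx n)
  have hidx2 : ∀ n, Lg T ((T α).1 (idx n)) (R n ∩ (T α).2 (idx n)) := by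
    intro n
    cases n with
    | zero => exact hf2 0 0
    | succ n => exact hf2 (n + 1) (idx n)
  refine ⟨⋃ l, R l ∩ (T α).2 (idx l), iUnion_subset fun l => ?_, ?_, fun m => ?_⟩
  · exact inter_subset_left.trans (hanti (Nat.zero_le l))
  · exact Lg_iUnion hT hα hidx (fun l => inter_subset_right) hidx2
  · exact small_iUnion_lt hT hα (fun l => inter_subset_right) m subset_rfl
      (fun l hl => inter_subset_left.trans (hanti hl))

/-- pseudo-intersection of a decreasing sequence of configurations whose pieces of type `⊥` are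
points -/
theorem exists_pi_config (hT : WfT T) (c : ℕ → ℕ → Set ℕ)
    (hc : ∀ m, ∀ j < n, c (m + 1) j ⊆ c m j) (hL : ∀ m, ∀ j < n, Lg T (t j) (c m j))
    (hs : ∀ j < n, t j = ⊥ → (c 0 j).Subsingleton) :
    ∃ c' : ℕ → Set ℕ, (∀ j < n, c' j ⊆ c 0 j) ∧ ∀ m, Ref T n t c' (c m) := by
  have key : ∀ j, ∃ s : Set ℕ, j < n → s ⊆ c 0 j ∧ Lg T (t j) s ∧
      ∀ m, ¬ Lg T (t j) (s \ c m j) := by
    intro j
    by_cases hj : j < n
    · by_cases htj : t j = ⊥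
      · refine ⟨c 0 j, fun _ => ⟨subset_rfl, hL 0 j hj, fun m => ?_⟩⟩
        have h1 : c m j ⊆ c 0 j := by
          have : Antitone fun m => c m j := antitone_nat_of_succ_le fun m => hc m j hj
          exact this (Nat.zero_le m)
        have h2 := hL m j hj
        rw [htj, Lg_bot] at h2
        obtain ⟨x, hx⟩ := h2
        have h3 : c 0 j \ c m j = ∅ := by
          rw [sdiff_eq_empty]
          intro y hy
          rw [hs j hj htj hy (h1 hx)]; exact hx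
        rw [h3]
        exact not_Lg_empty T _
      · obtain ⟨s, h1, h2, h3⟩ := exists_pi hT htj (fun m => c m j) (fun m => hc m j hj)
          (fun m => hL m j hj)
        exact ⟨s, fun _ => ⟨h1, h2, h3⟩⟩
    · exact ⟨∅, fun h => absurd h hj⟩
  choose c' hc' using key
  exact ⟨c', fun j hj => (hc' j hj).1, fun m => ⟨fun j hj => (hc' j hj).2.1,
    fun j hj => (hc' j hj).2.2 m⟩⟩

/-- every configuration has a subset configuration whose pieces of type `⊥` are points -/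
theorem exists_pointed (hL : ∀ j < n, Lg T (t j) (c j)) :
    ∃ c' : ℕ → Set ℕ, (∀ j < n, c' j ⊆ c j) ∧ (∀ j < n, Lg T (t j) (c' j)) ∧
      ∀ j < n, t j = ⊥ → (c' j).Subsingleton := by
  have key : ∀ j, ∃ s : Set ℕ, j < n → s ⊆ c j ∧ Lg T (t j) s ∧ (t j = ⊥ → s.Subsingleton) := by
    intro j
    by_cases hj : j < n
    · by_cases htj : t j = ⊥
      · have h2 := hL j hj
        rw [htj, Lg_bot] at h2
        obtain ⟨x, hx⟩ := h2
        refine ⟨{x}, fun _ => ⟨singleton_subset_iff.2 hx, ?_, fun _ => subsingleton_singleton⟩⟩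
        rw [htj, Lg_bot]; exact singleton_nonempty x
      · exact ⟨c j, fun _ => ⟨subset_rfl, hL j hj, fun h => absurd h htj⟩⟩
    · exact ⟨∅, fun h => absurd h hj⟩
  choose c' hc' using key
  exact ⟨c', fun j hj => (hc' j hj).1, fun j hj => (hc' j hj).2.1, fun j hj => (hc' j hj).2.2⟩

/-- The fusion lemma: decomposing the piece `j`. -/
theorem fuse (hT : WfT T) (hL : ∀ l < n, Lg T (t l) (c l))
    (hs : ∀ l < n, t l = ⊥ → (c l).Subsingleton) {j : ℕ} (hj : j < n) (htj : t j ≠ ⊥)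
    (Φ : ℕ → (ℕ → Set ℕ) → Set ℕ → Prop)
    (hΦ : ∀ c' : ℕ → Set ℕ, (∀ l < n, c' l ⊆ c l) → (∀ l < n, Lg T (t l) (c' l)) → ∀ m, ∃ i, m ≤ i ∧
      ∃ (c'' : ℕ → Set ℕ) (Q : Set ℕ), (∀ l < n, c'' l ⊆ c' l) ∧ (∀ l < n, Lg T (t l) (c'' l)) ∧
        Q ⊆ c' j ∩ (T (t j)).2 i ∧ Lg T ((T (t j)).1 i) Q ∧ Φ i c'' Q) :
    ∃ (c' : ℕ → Set ℕ) (idx : ℕ → ℕ) (d : ℕ → ℕ → Set ℕ) (Q : ℕ → Set ℕ), StrictMono idx ∧
      (∀ l, Φ (idx l) (d l) (Q l)) ∧ (∀ l, Q l ⊆ (T (t j)).2 (idx l)) ∧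
      (∀ l, Lg T ((T (t j)).1 (idx l)) (Q l)) ∧ c' j = ⋃ l, Q l ∧
      (∀ l, Ref T n t c' (d l)) ∧ ∀ l < n, c' l ⊆ c l := by
  classical
  -- states: a configuration, the index used last, and the child chosen last
  let St := {s : (ℕ → Set ℕ) × ℕ × Set ℕ // (∀ l < n, s.1 l ⊆ c l) ∧ ∀ l < n, Lg T (t l) (s.1 l)}
  have step : ∀ s : St, ∃ s' : St, s.1.2.1 < s'.1.2.1 ∧ (∀ l < n, s'.1.1 l ⊆ s.1.1 l) ∧
      s'.1.2.2 ⊆ s.1.1 j ∩ (T (t j)).2 s'.1.2.1 ∧
      Lg T ((T (t j)).1 s'.1.2.1) s'.1.2.2 ∧ Φ s'.1.2.1 s'.1.1 s'.1.2.2 := by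
    rintro ⟨⟨d, i, q⟩, h1, h2⟩
    obtain ⟨i', hi', d', q', g1, g2, g3, g4, g5⟩ := hΦ d h1 h2 (i + 1)
    exact ⟨⟨⟨d', i', q'⟩, fun l hl => (g1 l hl).trans (h1 l hl), g2⟩, by simpa using hi', g1, g3,
      g4, g5⟩
  choose F hF using step
  let s0 : St := ⟨⟨c, 0, ∅⟩, fun l _ => subset_rfl, hL⟩
  let r : ℕ → St := fun m => Nat.rec s0 (fun _ s => F s) m
  have hr : ∀ m, r (m + 1) = F (r m) := fun m => rfl
  let idx : ℕ → ℕ := fun l => (r (l + 1)).1.2.1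
  let d : ℕ → ℕ → Set ℕ := fun l => (r (l + 1)).1.1
  let Q : ℕ → Set ℕ := fun l => (r (l + 1)).1.2.2
  have hdec : ∀ l' < n, ∀ a b, a ≤ b → (r b).1.1 l' ⊆ (r a).1.1 l' := by
    intro l' hl' a b hab
    have : Antitone fun m => (r m).1.1 l' :=
      antitone_nat_of_succ_le fun m => (hF (r m)).2.1 l' hl'
    exact this hab
  have hidx : StrictMono idx := strictMono_nat_of_lt_succ fun l => (hF (r (l + 1))).1
  have hQ1 : ∀ l, Q l ⊆ (T (t j)).2 (idx l) := fun l =>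
    ((hF (r l)).2.2.1).trans inter_subset_right
  have hQ2 : ∀ l, Q l ⊆ (r l).1.1 j := fun l => ((hF (r l)).2.2.1).trans inter_subset_left
  have hQ3 : ∀ l, Lg T ((T (t j)).1 (idx l)) (Q l) := fun l => (hF (r l)).2.2.2.1
  obtain ⟨c₁, hc₁, hc₁'⟩ := exists_pi_config hT (n := n) (t := t) (fun m => (r m).1.1)
    (fun m l' hl' => (hF (r m)).2.1 l' hl') (fun m l' hl' => (r m).2.2 l' hl')
    (fun l' hl' h => hs l' hl' h)
  refine ⟨Function.update c₁ j (⋃ l, Q l), idx, d, Q, hidx, fun l => (hF (r l)).2.2.2.2, hQ1,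
    hQ3, by simp, fun l => ⟨fun p hp => ?_, fun p hp => ?_⟩, fun p hp => ?_⟩
  · by_cases hpj : p = j
    · subst hpj
      rw [Function.update_self]
      exact Lg_iUnion hT htj hidx hQ1 hQ3
    · rw [Function.update_of_ne hpj]
      exact (hc₁' 0).lg p hp
  · by_cases hpj : p = j
    · subst hpj
      rw [Function.update_self]
      exact small_iUnion_lt hT htj hQ1 (l + 1) subset_rfl
        (fun l' hl' => (hQ2 l').trans (hdec p hj _ _ hl'))
    · rw [Function.update_of_ne hpj]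
      exact (hc₁' (l + 1)).sm p hp
  · by_cases hpj : p = j
    · subst hpj
      rw [Function.update_self]
      exact iUnion_subset fun l => (hQ2 l).trans (hdec p hj _ _ (Nat.zero_le _))
    · rw [Function.update_of_ne hpj]
      exact hc₁ p hp

end Pool.Agent.Helper46.Tuk
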